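import Pool.Agent.Lib.MP_dd244f_an.Joint.Stmts
import Pool.Agent.Lib.MP_dd244f_an.L2

/-!
Full operator, all real `p ≥ 2`: interpolation between the even exponents. The statements of the
modules (nothing is proved here).
-/

set_option autoImplicit false

namespace Pool.Agent.Lib.MP_dd244f_an.Unif

open MeasureTheory Filter Topology
open Pool.Agent.Lib.MP_dd244f_an.Joint (ratio)
open scoped SchwartzMap ENNReal NNReal ContDiff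

/-- smooth with compact support -/
def SC (f : ℂ → ℂ) : Prop := ContDiff ℝ ∞ f ∧ HasCompactSupport f

/-- the bilinear form of `T ^ n` -/
noncomputable def Bf (n : ℕ) (φ γ : ℂ → ℂ) : ℂ := ∫ x, Tn n φ x * γ x

/-- the `L ^ p` norm as a real number -/
noncomputable def nr (p : ℝ) (f : ℂ → ℂ) : ℝ := (∫ x, ‖f x‖ ^ p) ^ (1 / p)

/-- the form `𝓑` is analytic on exponential families and bounded on the unit strip -/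
def Ana (𝓑 : (ℂ → ℂ) → (ℂ → ℂ) → ℂ) : Prop :=
  ∀ φ γ, SC φ → SC γ → ∀ u v : ℂ → ℝ, ContDiff ℝ ∞ u → ContDiff ℝ ∞ v →
    Differentiable ℂ (fun ζ : ℂ => 𝓑 (fun x => Complex.exp (ζ * u x) * φ x)
      (fun x => Complex.exp (ζ * v x) * γ x)) ∧
    ∃ C, ∀ ζ : ℂ, 0 ≤ ζ.re → ζ.re ≤ 1 → ‖𝓑 (fun x => Complex.exp (ζ * u x) * φ x)
      (fun x => Complex.exp (ζ * v x) * γ x)‖ ≤ C

/-- (RTS) the Riesz-Thorin theorem for bilinear forms on smooth functions -/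
def StmtRTS : Prop := ∀ (𝓑 : (ℂ → ℂ) → (ℂ → ℂ) → ℂ) (p₀ p₁ p q₀ q₁ q M₀ M₁ τ : ℝ),
  2 ≤ p₀ → p₀ ≤ p₁ → 0 < M₀ → 0 < M₁ → 0 ≤ τ → τ ≤ 1 →
  1 / p₀ + 1 / q₀ = 1 → 1 / p₁ + 1 / q₁ = 1 → 1 / p + 1 / q = 1 →
  1 / p = (1 - τ) / p₀ + τ / p₁ → Ana 𝓑 →
  (∀ φ γ, SC φ → SC γ → ‖𝓑 φ γ‖ ≤ M₀ * nr p₀ φ * nr q₀ γ) →
  (∀ φ γ, SC φ → SC γ → ‖𝓑 φ γ‖ ≤ M₁ * nr p₁ φ * nr q₁ γ) →
  ∀ φ γ, SC φ → SC γ → ‖𝓑 φ γ‖ ≤ M₀ ^ (1 - τ) * M₁ ^ τ * nr p φ * nr q γ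

/-- (FormAn) the form of `T ^ n` is analytic -/
def StmtFormAn : Prop := ∀ n : ℕ, Ana (Bf n)

/-- (Hol) from the operator to the form -/
def StmtHol : Prop := ∀ (n : ℕ) (p q M : ℝ), 2 ≤ p → 1 / p + 1 / q = 1 → 0 ≤ M →
  (∀ f : 𝓢(ℂ, ℂ), eLpNorm (Tn n f) (ENNReal.ofReal p) volume ≤
    ENNReal.ofReal M * eLpNorm f (ENNReal.ofReal p) volume) →
  ∀ φ γ, SC φ → SC γ → ‖Bf n φ γ‖ ≤ M * nr p φ * nr q γ

/-- (Conc) from the form to the operator -/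
def StmtConc : Prop := ∀ (n : ℕ) (p q M : ℝ), 2 ≤ p → 1 / p + 1 / q = 1 → 0 ≤ M →
  (∀ φ γ, SC φ → SC γ → ‖Bf n φ γ‖ ≤ M * nr p φ * nr q γ) →
  ∀ f : 𝓢(ℂ, ℂ), eLpNorm (Tn n f) (ENNReal.ofReal p) volume ≤
    ENNReal.ofReal M * eLpNorm f (ENNReal.ofReal p) volume

/-- (NumC) the loss of the interpolation -/
def StmtNumC : Prop := ∀ (n k : ℕ) (p τ : ℝ), 1 ≤ k → 0 ≤ τ → τ ≤ 1 →
  1 / p = (1 - τ) / (2 * k) + τ / (2 * (k + 1)) →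
  ratio n (2 * k) ^ (1 - τ) * ratio n (2 * (k + 1)) ^ τ ≤ 10437 / 10000 * ratio n p

/-- (FinalU) -/
def StmtFinalU : Prop := ∃ n₀ : ℕ, ∀ n ≥ n₀, ∀ p : ℝ, 2 ≤ p →
  ∀ f : 𝓢(ℂ, ℂ), eLpNorm (Tn n f) (ENNReal.ofReal p) volume ≤
    ENNReal.ofReal (261 / 250 * ratio n p) * eLpNorm f (ENNReal.ofReal p) volume

end Pool.Agent.Lib.MP_dd244f_an.Unif
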