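import Pool.Agent.Lib.MP_dd244f_an.Unif.NrAux

/-!
From the bilinear form to the operator (duality and approximation).
-/

set_option autoImplicit false

namespace Pool.Agent.Lib.MP_dd244f_an.Unif

open MeasureTheory Filter Topology Set
open scoped SchwartzMap ENNReal NNReal ContDiff

namespace ConcAux

open NrAux

/-! ### Duality -/

/-- piecewise linear cutoff -/
noncomputable def cut (R : ℝ) (x : ℂ) : ℝ := max 0 (min 1 (R + 1 - ‖x‖))

theorem cut_continuous (R : ℝ) : Continuous (cut R) := by unfold cut; fun_prop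

theorem cut_nonneg (R : ℝ) (x : ℂ) : 0 ≤ cut R x := le_max_left _ _

theorem cut_le_one (R : ℝ) (x : ℂ) : cut R x ≤ 1 := max_le zero_le_one (min_le_left _ _)

theorem cut_eq_one {R : ℝ} {x : ℂ} (h : ‖x‖ ≤ R) : cut R x = 1 := by
  unfold cut
  rw [min_eq_left (by linarith), max_eq_right zero_le_one]

theorem cut_eq_zero {R : ℝ} {x : ℂ} (h : R + 1 ≤ ‖x‖) : cut R x = 0 := by
  unfold cut
  rw [max_eq_left]
  exact (min_le_right _ _).trans (by linarith)

theorem cut_compact (R : ℝ) : HasCompactSupport (cut R) := by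
  apply HasCompactSupport.intro (isCompact_closedBall (0 : ℂ) (R + 1))
  intro x hx
  apply cut_eq_zero
  rw [Metric.mem_closedBall, dist_zero_right, not_le] at hx
  exact hx.le

theorem sq_mul_rpow {t p : ℝ} (ht : 0 ≤ t) (hp : 2 ≤ p) : t ^ 2 * t ^ (p - 2) = t ^ p := by
  rcases ht.eq_or_lt with h | h
  · rw [← h, Real.zero_rpow (show p ≠ 0 by linarith)]; simp
  · rw [← Real.rpow_natCast, ← Real.rpow_add h]
    congr 1
    push_cast
    ring

theorem mul_rpow_sub {t p : ℝ} (ht : 0 ≤ t) (hp : 2 ≤ p) : t * t ^ (p - 2) = t ^ (p - 1) := by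
  rcases ht.eq_or_lt with h | h
  · rw [← h, Real.zero_rpow (by linarith : p - 1 ≠ 0)]; simp
  · nth_rw 1 [← Real.rpow_one t]
    rw [← Real.rpow_add h]
    congr 1
    ring

theorem rpow_le_self {x q : ℝ} (h0 : 0 ≤ x) (h1 : x ≤ 1) (hq : 1 ≤ q) : x ^ q ≤ x := by
  rcases h0.eq_or_lt with h | h
  · rw [← h, Real.zero_rpow (by linarith)]
  · calc x ^ q ≤ x ^ (1:ℝ) := Real.rpow_le_rpow_of_exponent_ge h h1 hq
      _ = x := Real.rpow_one x

theorem rpow_integrable {g : ℂ → ℂ} (hg : Continuous g) (hs : HasCompactSupport g) {q : ℝ}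
    (hq : 0 < q) : Integrable fun x => ‖g x‖ ^ q := by
  apply Continuous.integrable_of_hasCompactSupport
  · exact hg.norm.rpow_const (fun x => Or.inr hq.le)
  · exact hs.comp_left (g := fun z : ℂ => ‖z‖ ^ q) (by simp [Real.zero_rpow hq.ne'])

theorem dual_norm {η : ℂ → ℂ} (hη : Continuous η)
    {p q D : ℝ} (hp : 2 ≤ p) (hpq : 1 / p + 1 / q = 1) (hq1 : 1 < q) (hD : 0 ≤ D)
    (h : ∀ γ : ℂ → ℂ, Continuous γ → HasCompactSupport γ →
      ‖∫ x, η x * γ x‖ ≤ D * nr q γ) :
    ∫⁻ x, ‖η x‖ₑ ^ p ≤ ENNReal.ofReal (D ^ p) := by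
  have hp0 : 0 < p := by linarith
  have hq : 0 < q := by linarith
  have hpq2 : (p - 1) * q = p := by
    field_simp at hpq
    linarith
  have hηp : Continuous fun x => ‖η x‖ ^ p := hη.norm.rpow_const (fun x => Or.inr hp0.le)
  have hη2 : Continuous fun x => ‖η x‖ ^ (p - 2) :=
    hη.norm.rpow_const (fun x => Or.inr (by linarith))
  -- the bound for the truncated integrals
  have hk : ∀ R : ℝ, ∫ x, cut R x * ‖η x‖ ^ p ≤ D ^ p := by
    intro R
    set γ : ℂ → ℂ := fun x => (cut R x : ℂ) * (starRingEnd ℂ (η x) * ((‖η x‖ ^ (p - 2) : ℝ) : ℂ))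
      with hγ
    have cγ : Continuous γ := by
      have h1 := cut_continuous R
      have h2 : Continuous fun x => starRingEnd ℂ (η x) := Complex.continuous_conj.comp hη
      rw [hγ]
      exact (Complex.continuous_ofReal.comp h1).mul (h2.mul (Complex.continuous_ofReal.comp hη2))
    have sγ : HasCompactSupport γ := by
      have h1 : HasCompactSupport fun x => (cut R x : ℂ) :=
        (cut_compact R).comp_left (g := fun t : ℝ => (t : ℂ)) (by simp)
      exact h1.mul_right
    have hi := h γ cγ sγ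
    set I := ∫ x, cut R x * ‖η x‖ ^ p with hI
    have hI0 : 0 ≤ I := integral_nonneg fun x =>
      mul_nonneg (cut_nonneg _ _) (Real.rpow_nonneg (norm_nonneg _) _)
    have e1 : ∫ x, η x * γ x = (I : ℂ) := by
      rw [hI, ← integral_complex_ofReal]
      congr 1
      ext x
      rw [hγ]
      simp only
      rw [← sq_mul_rpow (norm_nonneg _) hp]
      push_cast
      rw [← Complex.mul_conj' (η x)]
      ring
    have e2 : ∫ x, ‖γ x‖ ^ q ≤ I := by
      rw [hI]
      apply integral_mono
      · exact rpow_integrable cγ sγ hq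
      · exact ((cut_continuous R).mul hηp).integrable_of_hasCompactSupport
          (cut_compact R).mul_right
      · intro x
        simp only
        rw [hγ, norm_mul, norm_mul, Complex.norm_real, Complex.norm_real, RCLike.norm_conj,
          Real.norm_eq_abs, Real.norm_eq_abs, abs_of_nonneg (cut_nonneg _ _),
          abs_of_nonneg (Real.rpow_nonneg (norm_nonneg _) _), mul_rpow_sub (norm_nonneg _) hp,
          Real.mul_rpow (cut_nonneg _ _) (Real.rpow_nonneg (norm_nonneg _) _),
          ← Real.rpow_mul (norm_nonneg _), hpq2]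
        exact mul_le_mul_of_nonneg_right (rpow_le_self (cut_nonneg _ _) (cut_le_one _ _) hq1.le)
          (Real.rpow_nonneg (norm_nonneg _) _)
    rw [e1, Complex.norm_real, Real.norm_eq_abs, abs_of_nonneg hI0] at hi
    have e3 : I ≤ D * I ^ (1 / q) := by
      refine hi.trans (mul_le_mul_of_nonneg_left ?_ hD)
      unfold nr
      apply Real.rpow_le_rpow _ e2 (by positivity)
      exact integral_nonneg fun x => Real.rpow_nonneg (norm_nonneg _) _
    rcases hI0.eq_or_lt with h0 | h0
    · rw [← h0]; exact Real.rpow_nonneg hD _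
    · have h1 : I ^ (1 / p) * I ^ (1 / q) = I := by
        rw [← Real.rpow_add h0, hpq, Real.rpow_one]
      have h2 : 0 < I ^ (1 / q) := Real.rpow_pos_of_pos h0 _
      have h3 : I ^ (1 / p) ≤ D := by
        by_contra hcon
        rw [not_le] at hcon
        have := mul_lt_mul_of_pos_right hcon h2
        linarith
      calc I = (I ^ (1 / p)) ^ p := by
            rw [← Real.rpow_mul hI0, one_div, inv_mul_cancel₀ hp0.ne', Real.rpow_one]
        _ ≤ D ^ p := Real.rpow_le_rpow (Real.rpow_nonneg hI0 _) h3 hp0.le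
  -- monotone limit
  have hcov : AECover (volume : Measure ℂ) atTop fun k : ℕ => Metric.closedBall (0 : ℂ) (k:ℝ) :=
    aecover_closedBall tendsto_natCast_atTop_atTop
  have hmeas : Measurable fun x => ‖η x‖ₑ ^ p := (hη.enorm.measurable).pow_const _
  have hlim := hcov.lintegral_tendsto_of_countably_generated hmeas.aemeasurable
  apply le_of_tendsto' hlim
  intro k
  rw [← lintegral_indicator Metric.isClosed_closedBall.measurableSet]
  calc ∫⁻ x, (Metric.closedBall (0 : ℂ) (k:ℝ)).indicator (fun x => ‖η x‖ₑ ^ p) x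
      ≤ ∫⁻ x, ENNReal.ofReal (cut k x * ‖η x‖ ^ p) := by
        apply lintegral_mono
        intro x
        by_cases hx : x ∈ Metric.closedBall (0 : ℂ) (k:ℝ)
        · rw [indicator_of_mem hx]
          rw [Metric.mem_closedBall, dist_zero_right] at hx
          simp only
          rw [cut_eq_one hx, one_mul, ← ENNReal.ofReal_rpow_of_nonneg (norm_nonneg _)
            hp0.le, ofReal_norm]
        · rw [indicator_of_notMem hx]
          exact bot_le
    _ = ENNReal.ofReal (∫ x, cut k x * ‖η x‖ ^ p) := by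
        rw [ofReal_integral_eq_lintegral_ofReal]
        · exact ((cut_continuous k).mul hηp).integrable_of_hasCompactSupport
            (cut_compact k).mul_right
        · filter_upwards with x
          exact mul_nonneg (cut_nonneg _ _) (Real.rpow_nonneg (norm_nonneg _) _)
    _ ≤ ENNReal.ofReal (D ^ p) := ENNReal.ofReal_le_ofReal (hk k)

/-! ### From smooth to continuous test functions -/

theorem test_cont {η : ℂ → ℂ} (hη : Continuous η) {q D : ℝ} (hq : 1 < q)
    (h : ∀ γ : ℂ → ℂ, SC γ → ‖∫ x, η x * γ x‖ ≤ D * nr q γ)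
    {G : ℂ → ℂ} (hG : Continuous G) (hGs : HasCompactSupport G) :
    ‖∫ x, η x * G x‖ ≤ D * nr q G := by
  have hq0 : 0 < q := by linarith
  have hex : ∀ k : ℕ, ∃ g : ℂ → ℂ, ContDiff ℝ ∞ g ∧ (∀ x, dist (g x) (G x) < 1 / ((k : ℝ) + 1)) ∧
      Function.support g ⊆ Function.support G := by
    intro k
    exact hG.exists_contDiff_approx ⊤ (ε := fun _ => 1 / ((k : ℝ) + 1)) continuous_const
      (fun _ => by positivity)
  choose g hg1 hg2 hg3 using hex
  have hsc : ∀ k, SC (g k) := fun k => ⟨hg1 k, hGs.mono (hg3 k)⟩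
  have hpt : ∀ x, Tendsto (fun k => g k x) atTop (𝓝 (G x)) := by
    intro x
    rw [tendsto_iff_dist_tendsto_zero]
    refine squeeze_zero (fun _ => dist_nonneg) (fun k => (hg2 k x).le) ?_
    exact tendsto_one_div_add_atTop_nhds_zero_nat
  set K := tsupport G with hK
  have hKc : IsCompact K := hGs
  have hbd : ∀ k x, ‖g k x‖ ≤ K.indicator (fun x => ‖G x‖ + 1) x := by
    intro k x
    by_cases hx : x ∈ K
    · rw [indicator_of_mem hx]
      have h1 : ‖g k x - G x‖ ≤ 1 := by
        rw [← dist_eq_norm]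
        refine (hg2 k x).le.trans ?_
        rw [div_le_one (by positivity)]
        have : (0:ℝ) ≤ k := Nat.cast_nonneg k
        linarith
      calc ‖g k x‖ = ‖(g k x - G x) + G x‖ := by rw [sub_add_cancel]
        _ ≤ ‖g k x - G x‖ + ‖G x‖ := norm_add_le _ _
        _ ≤ ‖G x‖ + 1 := by linarith
    · rw [indicator_of_notMem hx]
      have h1 : g k x = 0 := by
        by_contra hne
        exact hx (subset_tsupport _ (hg3 k hne))
      rw [h1, norm_zero]
  have hKm : MeasurableSet K := (isClosed_tsupport G).measurableSet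
  have l1 : Tendsto (fun k => ∫ x, η x * g k x) atTop (𝓝 (∫ x, η x * G x)) := by
    apply tendsto_integral_of_dominated_convergence
      (bound := K.indicator (fun x => ‖η x‖ * (‖G x‖ + 1)))
    · intro k
      exact (hη.mul (hg1 k).continuous).aestronglyMeasurable
    · rw [integrable_indicator_iff hKm]
      exact (hη.norm.mul (hG.norm.add continuous_const)).continuousOn.integrableOn_compact hKc
    · intro k
      filter_upwards with x
      rw [norm_mul]
      have h1 := hbd k x
      by_cases hx : x ∈ K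
      · rw [indicator_of_mem hx] at h1 ⊢
        exact mul_le_mul_of_nonneg_left h1 (norm_nonneg _)
      · rw [indicator_of_notMem hx] at h1 ⊢
        have h2 : ‖g k x‖ = 0 := le_antisymm h1 (norm_nonneg _)
        rw [h2, mul_zero]
    · filter_upwards with x
      exact (hpt x).const_mul _
  have l2 : Tendsto (fun k => ∫ x, ‖g k x‖ ^ q) atTop (𝓝 (∫ x, ‖G x‖ ^ q)) := by
    apply tendsto_integral_of_dominated_convergence
      (bound := K.indicator (fun x => (‖G x‖ + 1) ^ q))
    · intro k
      exact ((hg1 k).continuous.norm.rpow_const (fun x => Or.inr hq0.le)).aestronglyMeasurable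
    · rw [integrable_indicator_iff hKm]
      exact ((hG.norm.add continuous_const).rpow_const
        (fun x => Or.inr hq0.le)).continuousOn.integrableOn_compact hKc
    · intro k
      filter_upwards with x
      rw [Real.norm_eq_abs, abs_of_nonneg (Real.rpow_nonneg (norm_nonneg _) _)]
      have h1 := hbd k x
      by_cases hx : x ∈ K
      · rw [indicator_of_mem hx] at h1 ⊢
        exact Real.rpow_le_rpow (norm_nonneg _) h1 hq0.le
      · rw [indicator_of_notMem hx] at h1 ⊢
        have h2 : ‖g k x‖ = 0 := le_antisymm h1 (norm_nonneg _)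
        rw [h2, Real.zero_rpow hq0.ne']
    · filter_upwards with x
      exact ((hpt x).norm).rpow_const (Or.inr hq0.le)
  have l3 : Tendsto (fun k => D * nr q (g k)) atTop (𝓝 (D * nr q G)) := by
    unfold nr
    exact (l2.rpow_const (Or.inr (by positivity))).const_mul _
  exact le_of_tendsto_of_tendsto' l1.norm l3 (fun k => h (g k) (hsc k))

/-! ### From compactly supported to Schwartz functions in the first argument -/

/-- the smooth cutoff -/
noncomputable def bmp (k : ℕ) : ContDiffBump (0 : ℂ) :=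
  ⟨(k : ℝ) + 1, (k : ℝ) + 2, by positivity, by linarith⟩

theorem first_arg {n : ℕ} {p q M : ℝ} (hp : 2 ≤ p) (hM : 0 ≤ M)
    (h : ∀ φ γ, SC φ → SC γ → ‖Bf n φ γ‖ ≤ M * nr p φ * nr q γ) (f : 𝓢(ℂ, ℂ))
    {γ : ℂ → ℂ} (hγ : SC γ) : ‖∫ x, Tn n f x * γ x‖ ≤ M * nr p f * nr q γ := by
  have hp0 : 0 < p := by linarith
  have h22 : (2 : ℝ).HolderConjugate 2 := by
    rw [Real.holderConjugate_iff]; norm_num
  set F : ℕ → ℂ → ℂ := fun k x => ((bmp k x : ℝ) : ℂ) * f x with hF
  have hsc : ∀ k, SC (F k) := by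
    intro k
    refine ⟨?_, ?_⟩
    · exact (Complex.ofRealCLM.contDiff.comp (bmp k).contDiff).mul (f.smooth ⊤)
    · have h1 : HasCompactSupport fun x => ((bmp k x : ℝ) : ℂ) :=
        (bmp k).hasCompactSupport.comp_left (g := fun t : ℝ => (t : ℂ)) (by simp)
      exact h1.mul_right
  have hle : ∀ k x, ‖F k x‖ ≤ ‖f x‖ := by
    intro k x
    rw [hF]
    simp only
    rw [norm_mul, Complex.norm_real, Real.norm_eq_abs, abs_of_nonneg (bmp k).nonneg]
    exact mul_le_of_le_one_left (norm_nonneg _) (bmp k).le_one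
  have hle2 : ∀ k x, ‖f x - F k x‖ ≤ ‖f x‖ := by
    intro k x
    have e : f x - F k x = (((1 - bmp k x : ℝ)) : ℂ) * f x := by
      rw [hF]; push_cast; ring
    rw [e, norm_mul, Complex.norm_real, Real.norm_eq_abs,
      abs_of_nonneg (by linarith [(bmp k).le_one (x := x)])]
    exact mul_le_of_le_one_left (norm_nonneg _) (by linarith [(bmp k).nonneg (x := x)])
  have hnr : ∀ k, nr p (F k) ≤ nr p f := by
    intro k
    unfold nr
    apply Real.rpow_le_rpow (integral_nonneg fun x => Real.rpow_nonneg (norm_nonneg _) _) _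
      (by positivity)
    apply integral_mono_of_nonneg
    · filter_upwards with x
      exact Real.rpow_nonneg (norm_nonneg _) _
    · have h1 := (f.memLp (ENNReal.ofReal p) (volume : Measure ℂ)).integrable_norm_rpow
        (by simpa using hp0) ENNReal.ofReal_ne_top
      rwa [ENNReal.toReal_ofReal hp0.le] at h1
    · filter_upwards with x
      exact Real.rpow_le_rpow (norm_nonneg _) (hle k x) hp0.le
  -- the difference
  have hT : ∀ k, MemLp (Tn n (⇑(f - scS (hsc k)))) 2 (volume : Measure ℂ) := fun k =>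
    ⟨(tn_continuous n _).aestronglyMeasurable,
      lt_of_le_of_lt (Tn_L2 n _) ((f - scS (hsc k)).memLp 2 volume).2⟩
  have hTf : ∀ u : 𝓢(ℂ, ℂ), MemLp (Tn n u) 2 (volume : Measure ℂ) := fun u =>
    ⟨(tn_continuous n _).aestronglyMeasurable, lt_of_le_of_lt (Tn_L2 n _) (u.memLp 2 volume).2⟩
  have hint : ∀ u : 𝓢(ℂ, ℂ), Integrable fun x => Tn n u x * γ x := fun u =>
    ((tn_continuous n u).mul hγ.1.continuous).integrable_of_hasCompactSupport hγ.2.mul_left
  have hdiff : ∀ k, ‖(∫ x, Tn n f x * γ x) - Bf n (F k) γ‖ ≤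
      nr 2 (fun x => f x - F k x) * nr 2 γ := by
    intro k
    have e1 : (∫ x, Tn n f x * γ x) - Bf n (F k) γ =
        ∫ x, Tn n (⇑(f - scS (hsc k))) x * γ x := by
      change (∫ x, Tn n f x * γ x) - (∫ x, Tn n (⇑(scS (hsc k))) x * γ x) = _
      rw [← integral_sub (hint f) (hint (scS (hsc k)))]
      congr 1
      ext x
      rw [← Tn_sub n f (scS (hsc k)) x]
      ring
    rw [e1]
    refine (holder h22 (memLp_two (hT k)) (memLp_two (sc_memLp hγ 2))).trans ?_
    apply mul_le_mul_of_nonneg_right _ (nr_nonneg _ _)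
    have h1 := Tn_L2 n (f - scS (hsc k))
    have h2 : MemLp (⇑(f - scS (hsc k))) 2 (volume : Measure ℂ) := (f - scS (hsc k)).memLp 2 volume
    have e3 := eLpNorm_eq_nr (p := 2) (by norm_num) (memLp_two (hT k))
    have e4 := eLpNorm_eq_nr (p := 2) (by norm_num) (memLp_two h2)
    rw [ofReal_two] at e3 e4
    rw [e3, e4] at h1
    exact (ENNReal.ofReal_le_ofReal_iff (nr_nonneg _ _)).1 h1
  have hlim0 : Tendsto (fun k => nr 2 (fun x => f x - F k x)) atTop (𝓝 0) := by
    have l1 : Tendsto (fun k => ∫ x, ‖f x - F k x‖ ^ (2 : ℝ)) atTop (𝓝 (∫ _ : ℂ, (0 : ℝ))) := by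
      apply tendsto_integral_of_dominated_convergence (bound := fun x => ‖f x‖ ^ (2 : ℝ))
      · intro k
        exact ((f.continuous.sub (hsc k).1.continuous).norm.rpow_const
          (fun x => Or.inr (by norm_num))).aestronglyMeasurable
      · have h1 := (f.memLp (ENNReal.ofReal 2) (volume : Measure ℂ)).integrable_norm_rpow
          (by simp) ENNReal.ofReal_ne_top
        rwa [ENNReal.toReal_ofReal (by norm_num)] at h1
      · intro k
        filter_upwards with x
        rw [Real.norm_eq_abs, abs_of_nonneg (Real.rpow_nonneg (norm_nonneg _) _)]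
        exact Real.rpow_le_rpow (norm_nonneg _) (hle2 k x) (by norm_num)
      · filter_upwards with x
        apply tendsto_const_nhds.congr'
        filter_upwards [eventually_ge_atTop ⌈‖x‖⌉₊] with k hk
        have h1 : ‖x‖ ≤ k := (Nat.le_ceil _).trans (by exact_mod_cast hk)
        have h2 : bmp k x = 1 := by
          apply (bmp k).one_of_mem_closedBall
          rw [Metric.mem_closedBall, dist_zero_right]
          change ‖x‖ ≤ (k : ℝ) + 1
          linarith
        rw [hF]
        simp only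
        rw [h2]
        simp
    rw [integral_zero] at l1
    have l2 := l1.rpow_const (p := 1 / 2) (Or.inr (by norm_num))
    rw [Real.zero_rpow (by norm_num)] at l2
    exact l2
  have hlim : Tendsto (fun k => M * nr p f * nr q γ + nr 2 (fun x => f x - F k x) * nr 2 γ) atTop
      (𝓝 (M * nr p f * nr q γ + 0 * nr 2 γ)) := tendsto_const_nhds.add (hlim0.mul_const _)
  rw [zero_mul, add_zero] at hlim
  refine ge_of_tendsto' hlim fun k => ?_
  have h1 := h (F k) γ (hsc k) hγ
  have h2 : M * nr p (F k) * nr q γ ≤ M * nr p f * nr q γ :=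
    mul_le_mul_of_nonneg_right (mul_le_mul_of_nonneg_left (hnr k) hM) (nr_nonneg _ _)
  have h3 := hdiff k
  calc ‖∫ x, Tn n f x * γ x‖ = ‖Bf n (F k) γ + ((∫ x, Tn n f x * γ x) - Bf n (F k) γ)‖ := by
        congr 1; ring
    _ ≤ ‖Bf n (F k) γ‖ + ‖(∫ x, Tn n f x * γ x) - Bf n (F k) γ‖ := norm_add_le _ _
    _ ≤ _ := by linarith

end ConcAux

open NrAux ConcAux in
theorem conc : StmtConc := by
  intro n p q M hp hpq hM h f
  obtain ⟨hq1, hc⟩ := conj_exp hp hpq
  have hp0 : 0 < p := by linarith
  have hD : 0 ≤ M * nr p f := mul_nonneg hM (nr_nonneg _ _)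
  have h1 := dual_norm (tn_continuous n f) hp hpq hq1 hD (fun γ cγ sγ =>
    test_cont (tn_continuous n f) hq1 (fun γ' hγ' => first_arg hp hM h f hγ') cγ sγ)
  rw [eLpNorm_eq_nr hp0 (f.memLp _ volume), ← ENNReal.ofReal_mul hM,
    eLpNorm_eq_lintegral_rpow_enorm_toReal (by simpa using hp0) ENNReal.ofReal_ne_top,
    ENNReal.toReal_ofReal hp0.le]
  calc (∫⁻ x, ‖Tn n f x‖ₑ ^ p) ^ (1 / p) ≤ (ENNReal.ofReal ((M * nr p f) ^ p)) ^ (1 / p) :=
        ENNReal.rpow_le_rpow h1 (by positivity)
    _ = ENNReal.ofReal (M * nr p f) := by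
        rw [← ENNReal.ofReal_rpow_of_nonneg hD hp0.le, ← ENNReal.rpow_mul, mul_one_div,
          div_self hp0.ne', ENNReal.rpow_one]

end Pool.Agent.Lib.MP_dd244f_an.Unif
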