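import Pool.Agent.Lib.MP_dd244f_an.Unif.Stmts
import Pool.Agent.Lib.MP_dd244f_an.Even.FinalE

/-! All real exponents `p ≥ 2` from the even ones. -/

set_option autoImplicit false

namespace Pool.Agent.Lib.MP_dd244f_an.Unif

open MeasureTheory
open Pool.Agent.Lib.MP_dd244f_an.Joint (ratio)
open scoped SchwartzMap ENNReal NNReal

theorem ratio_pos (n : ℕ) (p : ℝ) (hp : 1 < p) : 0 < ratio n p := by
  unfold ratio
  have h1 : 0 < 1 - 1 / p := by
    rw [sub_pos, div_lt_one (by linarith)]; exact hp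
  exact div_pos (ascPochhammer_pos n _ h1) (ascPochhammer_pos n _ (by positivity))

theorem finalU (hE : Even.StmtFinalE) (hRT : StmtRTS) (hA : StmtFormAn) (hH : StmtHol)
    (hC : StmtConc) (hN : StmtNumC) : StmtFinalU := by
  obtain ⟨n₀, hn₀⟩ := hE (1 / 5000) (by norm_num)
  refine ⟨n₀, fun n hn p hp f => ?_⟩
  set k : ℕ := ⌊p / 2⌋₊ with hk
  have hk1 : 1 ≤ k := by
    rw [hk, Nat.one_le_floor_iff]
    linarith
  have hk1' : (1 : ℝ) ≤ k := by exact_mod_cast hk1
  have hkp : 2 * (k : ℝ) ≤ p := by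
    have := Nat.floor_le (show 0 ≤ p / 2 by linarith)
    rw [← hk] at this
    linarith
  have hkp' : p ≤ 2 * ((k : ℝ) + 1) := by
    have := Nat.lt_floor_add_one (p / 2)
    rw [← hk] at this
    linarith
  have hp0 : 0 < p := by linarith
  have hk0 : (0 : ℝ) < k := by linarith
  set d : ℝ := 1 / (2 * k) - 1 / (2 * (k + 1)) with hd
  have hd0 : 0 < d := by
    rw [hd, sub_pos]
    exact one_div_lt_one_div_of_lt (by positivity) (by linarith)
  set τ : ℝ := (1 / (2 * k) - 1 / p) / d with hτ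
  have h1 : (1 : ℝ) / p ≤ 1 / (2 * k) := one_div_le_one_div_of_le (by positivity) hkp
  have h2 : (1 : ℝ) / (2 * (k + 1)) ≤ 1 / p := one_div_le_one_div_of_le hp0 hkp'
  have hτ0 : 0 ≤ τ := div_nonneg (by linarith) hd0.le
  have hτ1 : τ ≤ 1 := by
    rw [hτ, div_le_one hd0]
    linarith
  have hp1 : 1 / p = (1 - τ) / (2 * k) + τ / (2 * (k + 1)) := by
    have e : τ * d = 1 / (2 * k) - 1 / p := by
      rw [hτ]; field_simp
    have e2 : (1 - τ) / (2 * k) + τ / (2 * (k + 1)) = 1 / (2 * k) - τ * d := by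
      rw [hd]; ring
    rw [e2, e]
    ring
  have hconj : ∀ r : ℝ, 2 ≤ r → 1 / r + 1 / (r / (r - 1)) = 1 := by
    intro r hr
    have : r - 1 ≠ 0 := by
      have : 0 < r - 1 := by linarith
      exact this.ne'
    field_simp
    ring
  have hr0 := ratio_pos n (2 * k) (by linarith)
  have hr1 := ratio_pos n (2 * (k + 1)) (by linarith)
  have hr := ratio_pos n p (by linarith)
  have b0 := hH n (2 * k) (2 * k / (2 * k - 1)) ((1 + 1 / 5000) * ratio n (2 * k)) (by linarith)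
    (hconj _ (by linarith)) (by positivity) (fun f => hn₀ n hn k hk1 f)
  have b1 := hH n (2 * (k + 1)) (2 * (k + 1) / (2 * (k + 1) - 1))
    ((1 + 1 / 5000) * ratio n (2 * (k + 1))) (by linarith)
    (hconj _ (by linarith)) (by positivity) (fun f => by
      have := hn₀ n hn (k + 1) (by omega) f
      push_cast at this
      exact this)
  have b2 := hRT (Bf n) (2 * k) (2 * (k + 1)) p (2 * k / (2 * k - 1))
    (2 * (k + 1) / (2 * (k + 1) - 1)) (p / (p - 1)) ((1 + 1 / 5000) * ratio n (2 * k))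
    ((1 + 1 / 5000) * ratio n (2 * (k + 1))) τ (by linarith) (by linarith) (by positivity)
    (by positivity) hτ0 hτ1 (hconj _ (by linarith)) (hconj _ (by linarith)) (hconj _ hp) hp1
    (hA n) b0 b1
  refine hC n p (p / (p - 1)) (261 / 250 * ratio n p) hp (hconj _ hp) (by positivity)
    (fun φ γ hφ hγ => (b2 φ γ hφ hγ).trans ?_) f
  have hφ0 : 0 ≤ nr p φ := Real.rpow_nonneg (integral_nonneg fun x => by positivity) _
  have hγ0 : 0 ≤ nr (p / (p - 1)) γ := Real.rpow_nonneg (integral_nonneg fun x => by positivity) _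
  refine mul_le_mul_of_nonneg_right (mul_le_mul_of_nonneg_right ?_ hφ0) hγ0
  rw [Real.mul_rpow (by norm_num) hr0.le, Real.mul_rpow (by norm_num) hr1.le]
  have e3 : ((1 : ℝ) + 1 / 5000) ^ (1 - τ) * ratio n (2 * k) ^ (1 - τ) *
      ((1 + 1 / 5000) ^ τ * ratio n (2 * (k + 1)) ^ τ)
      = (1 + 1 / 5000) * (ratio n (2 * k) ^ (1 - τ) * ratio n (2 * (k + 1)) ^ τ) := by
    have e4 : ((1 : ℝ) + 1 / 5000) ^ (1 - τ) * (1 + 1 / 5000) ^ τ = 1 + 1 / 5000 := by
      rw [← Real.rpow_add (by norm_num)]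
      norm_num
    calc _ = (((1 : ℝ) + 1 / 5000) ^ (1 - τ) * (1 + 1 / 5000) ^ τ) *
          (ratio n (2 * k) ^ (1 - τ) * ratio n (2 * (k + 1)) ^ τ) := by ring
      _ = _ := by rw [e4]
  rw [e3]
  have h5 := hN n k p τ hk1 hτ0 hτ1 hp1
  calc (1 + 1 / 5000 : ℝ) * (ratio n (2 * k) ^ (1 - τ) * ratio n (2 * (k + 1)) ^ τ)
      ≤ (1 + 1 / 5000) * (10437 / 10000 * ratio n p) := mul_le_mul_of_nonneg_left h5 (by norm_num)
    _ ≤ _ := by
      rw [← mul_assoc]
      exact mul_le_mul_of_nonneg_right (by norm_num) hr.le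

end Pool.Agent.Lib.MP_dd244f_an.Unif
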