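import Pool.Agent.Lib.MP_dd244f_an.Unif.Stmts

/-!
(FormAn): the bilinear form of `T ^ n` is analytic on exponential families (helper85).
The form is bilinear on Schwartz functions and bounded on `L ^ 2 × L ^ 2`; the difference quotients
of `exp (ζ u) φ` converge in `L ^ 2`.
-/

set_option autoImplicit false

namespace Pool.Agent.Lib.MP_dd244f_an.Unif

open MeasureTheory Filter Topology
open scoped SchwartzMap ENNReal NNReal ContDiff FourierTransform

/-- the `L ^ 2` norm -/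
noncomputable def N2 (f : ℂ → ℂ) : ℝ := (eLpNorm f 2 volume).toReal

theorem N2_nonneg (f : ℂ → ℂ) : 0 ≤ N2 f := ENNReal.toReal_nonneg

theorem N2_le {f g : ℂ → ℂ} {c : ℝ} (hc : 0 ≤ c) (hg : MemLp g 2 volume)
    (h : ∀ x, ‖f x‖ ≤ c * ‖g x‖) : N2 f ≤ c * N2 g := by
  unfold N2
  have h1 : eLpNorm f 2 volume ≤ ENNReal.ofReal c * eLpNorm g 2 volume :=
    eLpNorm_le_mul_eLpNorm_of_ae_le_mul (Eventually.of_forall h) 2
  have h2 := ENNReal.toReal_mono (ENNReal.mul_ne_top ENNReal.ofReal_ne_top hg.eLpNorm_ne_top) h1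
  rwa [ENNReal.toReal_mul, ENNReal.toReal_ofReal hc] at h2

theorem cont_fourierInv {g : ℂ → ℂ} (h1 : Integrable g) : Continuous (𝓕⁻ g) := by
  have : 𝓕⁻ g = fun w => 𝓕 g (-w) := by
    ext w; rw [Real.fourierInv_eq_fourier_neg]
  rw [this]
  have hc : Continuous (𝓕 g) :=
    VectorFourier.fourierIntegral_continuous Real.continuous_fourierChar
      (by exact continuous_inner) h1
  exact hc.comp continuous_neg

theorem Tn_continuous (n : ℕ) (f : 𝓢(ℂ, ℂ)) : Continuous (Tn n f) := by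
  have e : Tn n f = 𝓕⁻ (fun ξ : ℂ => (starRingEnd ℂ ξ / ξ) ^ n * 𝓕 (f : ℂ → ℂ) ξ) := by
    ext z; exact Tn_eq n f z
  rw [e]
  exact cont_fourierInv (mult_integrable n f)

theorem sc_memLp (f : 𝓢(ℂ, ℂ)) : MemLp (f : ℂ → ℂ) 2 (volume : Measure ℂ) :=
  f.memLp 2 volume

theorem Tn_memLp (n : ℕ) (f : 𝓢(ℂ, ℂ)) : MemLp (Tn n f) 2 (volume : Measure ℂ) := by
  have h1 : AEStronglyMeasurable (Tn n f) (volume : Measure ℂ) :=
    (Tn_continuous n f).aestronglyMeasurable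
  have h2 : eLpNorm (Tn n f) 2 (volume : Measure ℂ) < ⊤ :=
    lt_of_le_of_lt (Tn_L2 n f) (sc_memLp f).2
  exact And.intro h1 h2

theorem Tn_mul_integrable (n : ℕ) (f g : 𝓢(ℂ, ℂ)) :
    Integrable (fun x => Tn n f x * g x) :=
  (Tn_memLp n f).integrable_mul (sc_memLp g)

theorem Tn_add (n : ℕ) (f g : 𝓢(ℂ, ℂ)) (z : ℂ) :
    Tn n (⇑(f + g)) z = Tn n f z + Tn n g z := by
  unfold Tn
  simp_rw [fourier_eq]
  rw [← integral_add (Tn_integrable n f z) (Tn_integrable n g z)]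
  apply integral_congr_ae
  filter_upwards with ξ
  have : 𝓕 (⇑(f + g)) ξ = 𝓕 (f : ℂ → ℂ) ξ + 𝓕 (g : ℂ → ℂ) ξ := by
    rw [← SchwartzMap.fourier_coe, ← SchwartzMap.fourier_coe, ← SchwartzMap.fourier_coe,
      FourierTransform.fourier_add, add_apply]
  rw [this]
  ring

theorem Tn_smul (n : ℕ) (c : ℂ) (f : 𝓢(ℂ, ℂ)) (z : ℂ) :
    Tn n (⇑(c • f)) z = c * Tn n f z := by
  unfold Tn
  simp_rw [fourier_eq]
  rw [← integral_const_mul]
  apply integral_congr_ae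
  filter_upwards with ξ
  have : 𝓕 (⇑(c • f)) ξ = c * 𝓕 (f : ℂ → ℂ) ξ := by
    rw [← SchwartzMap.fourier_coe, ← SchwartzMap.fourier_coe, FourierTransform.fourier_smul,
      smul_apply, smul_eq_mul]
  rw [this]
  ring

/-- the form as a bilinear map on Schwartz functions -/
noncomputable def BL (n : ℕ) : 𝓢(ℂ, ℂ) →ₗ[ℂ] 𝓢(ℂ, ℂ) →ₗ[ℂ] ℂ :=
  LinearMap.mk₂ ℂ (fun f g => ∫ x, Tn n f x * g x)
    (by
      intro f g h
      rw [← integral_add (Tn_mul_integrable n f h) (Tn_mul_integrable n g h)]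
      apply integral_congr_ae
      filter_upwards with x
      rw [Tn_add]; ring)
    (by
      intro c f h
      rw [smul_eq_mul, ← integral_const_mul]
      apply integral_congr_ae
      filter_upwards with x
      rw [Tn_smul]; ring)
    (by
      intro f g h
      rw [← integral_add (Tn_mul_integrable n f g) (Tn_mul_integrable n f h)]
      apply integral_congr_ae
      filter_upwards with x
      rw [add_apply]; ring)
    (by
      intro c f h
      rw [smul_eq_mul, ← integral_const_mul]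
      apply integral_congr_ae
      filter_upwards with x
      rw [smul_apply, smul_eq_mul]; ring)

theorem BL_apply (n : ℕ) (f g : 𝓢(ℂ, ℂ)) : BL n f g = ∫ x, Tn n f x * g x := rfl

theorem BL_bound (n : ℕ) (f g : 𝓢(ℂ, ℂ)) : ‖BL n f g‖ ≤ N2 f * N2 g := by
  rw [BL_apply]
  have h1 : ‖∫ x, Tn n f x * g x‖ₑ ≤ eLpNorm f 2 volume * eLpNorm g 2 volume := by
    refine (enorm_integral_le_lintegral_enorm _).trans ?_
    rw [← eLpNorm_one_eq_lintegral_enorm]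
    have h2 : eLpNorm (Tn n f • (g : ℂ → ℂ)) 1 (volume : Measure ℂ) ≤
        eLpNorm (Tn n f) 2 (volume : Measure ℂ) * eLpNorm (g : ℂ → ℂ) 2 (volume : Measure ℂ) :=
      eLpNorm_smul_le_mul_eLpNorm (sc_memLp g).1 (Tn_memLp n f).1
    refine le_trans h2 ?_
    gcongr
    exact Tn_L2 n f
  have h3 := ENNReal.toReal_mono (ENNReal.mul_ne_top (sc_memLp f).eLpNorm_ne_top
    (sc_memLp g).eLpNorm_ne_top) h1
  rw [ENNReal.toReal_mul, toReal_enorm] at h3
  exact h3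

/-- exponential families are smooth with compact support -/
theorem sc_exp {φ : ℂ → ℂ} (hφ : SC φ) {u : ℂ → ℝ} (hu : ContDiff ℝ ∞ u) (ζ : ℂ) :
    SC (fun x => Complex.exp (ζ * u x) * φ x) := by
  have h0 : ContDiff ℝ ∞ (fun x => ((u x : ℝ) : ℂ)) := Complex.ofRealCLM.contDiff.comp hu
  refine ⟨((contDiff_const.mul h0).cexp).mul hφ.1, hφ.2.mul_left⟩

theorem sc_mul {φ : ℂ → ℂ} (hφ : SC φ) {u : ℂ → ℝ} (hu : ContDiff ℝ ∞ u) :
    SC (fun x => (u x : ℂ) * φ x) := by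
  have h0 : ContDiff ℝ ∞ (fun x => ((u x : ℝ) : ℂ)) := Complex.ofRealCLM.contDiff.comp hu
  exact ⟨h0.mul hφ.1, hφ.2.mul_left⟩

/-- the Schwartz function belonging to a smooth function with compact support -/
noncomputable def toS {φ : ℂ → ℂ} (hφ : SC φ) : 𝓢(ℂ, ℂ) := hφ.2.toSchwartzMap hφ.1

theorem toS_apply {φ : ℂ → ℂ} (hφ : SC φ) (x : ℂ) : toS hφ x = φ x := rfl

theorem Bf_eq (n : ℕ) {φ γ : ℂ → ℂ} (hφ : SC φ) (hγ : SC γ) :
    Bf n φ γ = BL n (toS hφ) (toS hγ) := rfl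

/-- bound for `u` on the support of `φ` -/
theorem exists_bd {φ : ℂ → ℂ} (hφ : SC φ) {u : ℂ → ℝ} (hu : ContDiff ℝ ∞ u) :
    ∃ C : ℝ, 0 ≤ C ∧ ∀ x, φ x ≠ 0 → |u x| ≤ C := by
  obtain ⟨C0, hC0⟩ := hφ.2.isCompact.exists_bound_of_continuousOn hu.continuous.continuousOn
  exact ⟨max C0 0, le_max_right _ _, fun x hx =>
    (hC0 x (subset_tsupport _ (Function.mem_support.2 hx))).trans (le_max_left _ _)⟩

section family

variable {φ : ℂ → ℂ} (hφ : SC φ) {u : ℂ → ℝ} (hu : ContDiff ℝ ∞ u)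

/-- `exp (ζ u) φ` -/
noncomputable def P (ζ : ℂ) : 𝓢(ℂ, ℂ) := toS (sc_exp hφ hu ζ)

/-- `u exp (ζ u) φ` -/
noncomputable def P' (ζ : ℂ) : 𝓢(ℂ, ℂ) := toS (sc_mul (sc_exp hφ hu ζ) hu)

theorem P_apply (ζ x : ℂ) : P hφ hu ζ x = Complex.exp (ζ * u x) * φ x := rfl

theorem P'_apply (ζ x : ℂ) : P' hφ hu ζ x = (u x : ℂ) * (Complex.exp (ζ * u x) * φ x) := rfl

theorem P_diff {C : ℝ} (hC : 0 ≤ C) (hb : ∀ x, φ x ≠ 0 → |u x| ≤ C) (ζ h : ℂ)
    (hh : ‖h‖ * C ≤ 1) :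
    N2 (⇑(P hφ hu (ζ + h) - P hφ hu ζ)) ≤ (2 * C * ‖h‖) * N2 (P hφ hu ζ) := by
  apply N2_le (by positivity) (sc_memLp (P hφ hu ζ))
  intro x
  rw [sub_apply, P_apply, P_apply]
  by_cases hx : φ x = 0
  · rw [hx]; simp
  · have h1 : ‖h * (u x : ℂ)‖ ≤ ‖h‖ * C := by
      rw [norm_mul, Complex.norm_real]
      exact mul_le_mul_of_nonneg_left (hb x hx) (norm_nonneg _)
    have h2 := Complex.norm_exp_sub_one_le (h1.trans hh)
    have e : Complex.exp ((ζ + h) * u x) * φ x - Complex.exp (ζ * u x) * φ x =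
        (Complex.exp (h * u x) - 1) * (Complex.exp (ζ * u x) * φ x) := by
      rw [add_mul, Complex.exp_add]; ring
    rw [e, norm_mul]
    refine mul_le_mul_of_nonneg_right ?_ (norm_nonneg _)
    refine h2.trans ?_
    calc 2 * ‖h * (u x : ℂ)‖ ≤ 2 * (‖h‖ * C) := mul_le_mul_of_nonneg_left h1 (by norm_num)
      _ = 2 * C * ‖h‖ := by ring

theorem P_diff2 {C : ℝ} (hC : 0 ≤ C) (hb : ∀ x, φ x ≠ 0 → |u x| ≤ C) (ζ h : ℂ)
    (hh : ‖h‖ * C ≤ 1) :
    N2 (⇑(P hφ hu (ζ + h) - P hφ hu ζ - h • P' hφ hu ζ)) ≤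
      (C ^ 2 * ‖h‖ ^ 2) * N2 (P hφ hu ζ) := by
  apply N2_le (by positivity) (sc_memLp (P hφ hu ζ))
  intro x
  rw [sub_apply, sub_apply, smul_apply, P_apply, P_apply,
    P'_apply, smul_eq_mul]
  by_cases hx : φ x = 0
  · rw [hx]; simp
  · have h1 : ‖h * (u x : ℂ)‖ ≤ ‖h‖ * C := by
      rw [norm_mul, Complex.norm_real]
      exact mul_le_mul_of_nonneg_left (hb x hx) (norm_nonneg _)
    have h2 := Complex.norm_exp_sub_one_sub_id_le (h1.trans hh)
    have e : Complex.exp ((ζ + h) * u x) * φ x - Complex.exp (ζ * u x) * φ x -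
        h * ((u x : ℂ) * (Complex.exp (ζ * u x) * φ x)) =
        (Complex.exp (h * u x) - 1 - h * u x) * (Complex.exp (ζ * u x) * φ x) := by
      rw [add_mul, Complex.exp_add]; ring
    rw [e, norm_mul]
    refine mul_le_mul_of_nonneg_right ?_ (norm_nonneg _)
    refine h2.trans ?_
    calc ‖h * (u x : ℂ)‖ ^ 2 ≤ (‖h‖ * C) ^ 2 :=
          pow_le_pow_left₀ (norm_nonneg _) h1 2
      _ = C ^ 2 * ‖h‖ ^ 2 := by ring

theorem P_bound {C : ℝ} (hb : ∀ x, φ x ≠ 0 → |u x| ≤ C) (ζ : ℂ)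
    (h0 : 0 ≤ ζ.re) (h1 : ζ.re ≤ 1) :
    N2 (P hφ hu ζ) ≤ Real.exp C * N2 φ := by
  apply N2_le (Real.exp_pos _).le (sc_memLp (toS hφ))
  intro x
  rw [P_apply]
  by_cases hx : φ x = 0
  · rw [hx, mul_zero, norm_zero]
    exact mul_nonneg (Real.exp_pos _).le (norm_nonneg _)
  · rw [norm_mul]
    refine mul_le_mul_of_nonneg_right ?_ (norm_nonneg _)
    rw [Complex.norm_exp, Real.exp_le_exp]
    have e : (ζ * (u x : ℂ)).re = ζ.re * u x := by simp
    rw [e]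
    calc ζ.re * u x ≤ |ζ.re * u x| := le_abs_self _
      _ = ζ.re * |u x| := by rw [abs_mul, abs_of_nonneg h0]
      _ ≤ 1 * |u x| := mul_le_mul_of_nonneg_right h1 (abs_nonneg _)
      _ ≤ C := by rw [one_mul]; exact hb x hx

end family

theorem formAn : StmtFormAn := by
  intro n φ γ hφ hγ u v hu hv
  obtain ⟨C1, hC1, hb1⟩ := exists_bd hφ hu
  obtain ⟨C2, hC2, hb2⟩ := exists_bd hγ hv
  set C := max C1 C2 with hC
  have hC0 : 0 ≤ C := hC1.trans (le_max_left _ _)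
  have hbu : ∀ x, φ x ≠ 0 → |u x| ≤ C := fun x hx => (hb1 x hx).trans (le_max_left _ _)
  have hbv : ∀ x, γ x ≠ 0 → |v x| ≤ C := fun x hx => (hb2 x hx).trans (le_max_right _ _)
  have hF : (fun ζ : ℂ => Bf n (fun x => Complex.exp (ζ * u x) * φ x)
      (fun x => Complex.exp (ζ * v x) * γ x)) = fun ζ => BL n (P hφ hu ζ) (P hγ hv ζ) := by
    ext ζ; rfl
  refine ⟨?_, ?_⟩
  · rw [hF]
    intro ζ
    have hd : HasDerivAt (fun ζ => BL n (P hφ hu ζ) (P hγ hv ζ))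
        (BL n (P' hφ hu ζ) (P hγ hv ζ) + BL n (P hφ hu ζ) (P' hγ hv ζ)) ζ := by
      rw [hasDerivAt_iff_isLittleO_nhds_zero]
      refine Asymptotics.IsBigO.trans_isLittleO (g := fun h : ℂ => ‖h‖ ^ 2) ?_
        (Asymptotics.isLittleO_norm_pow_id one_lt_two)
      apply Asymptotics.IsBigO.of_bound (6 * C ^ 2 * (N2 (P hφ hu ζ) * N2 (P hγ hv ζ)))
      have hball : ∀ᶠ h : ℂ in 𝓝 0, ‖h‖ < 1 / (C + 1) := by
        have : (0 : ℝ) < 1 / (C + 1) := by positivity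
        filter_upwards [Metric.ball_mem_nhds (0 : ℂ) this] with h hh
        rwa [Metric.mem_ball, dist_zero_right] at hh
      filter_upwards [hball] with h hh
      have hh1 : ‖h‖ * C ≤ 1 := by
        rw [lt_div_iff₀ (by positivity)] at hh
        nlinarith [norm_nonneg h]
      have e1 := P_diff hφ hu hC0 hbu ζ h hh1
      have e2 := P_diff hγ hv hC0 hbv ζ h hh1
      have e3 := P_diff2 hφ hu hC0 hbu ζ h hh1
      have e4 := P_diff2 hγ hv hC0 hbv ζ h hh1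
      set A := P hφ hu ζ
      set A1 := P hφ hu (ζ + h)
      set B := P hγ hv ζ
      set B1 := P hγ hv (ζ + h)
      set A' := P' hφ hu ζ
      set B' := P' hγ hv ζ
      have key : BL n A1 B1 - BL n A B - h • (BL n A' B + BL n A B') =
          BL n (A1 - A - h • A') B + BL n A (B1 - B - h • B') + BL n (A1 - A) (B1 - B) := by
        simp only [map_sub, map_smul, LinearMap.sub_apply, LinearMap.smul_apply, smul_eq_mul]
        ring
      have nA := N2_nonneg A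
      have nB := N2_nonneg B
      rw [key]
      have b1 := BL_bound n (A1 - A - h • A') B
      have b2 := BL_bound n A (B1 - B - h • B')
      have b3 := BL_bound n (A1 - A) (B1 - B)
      have c1 : N2 (⇑(A1 - A - h • A')) * N2 B ≤ (C ^ 2 * ‖h‖ ^ 2) * N2 A * N2 B :=
        mul_le_mul_of_nonneg_right e3 nB
      have c2 : N2 A * N2 (⇑(B1 - B - h • B')) ≤ N2 A * ((C ^ 2 * ‖h‖ ^ 2) * N2 B) :=
        mul_le_mul_of_nonneg_left e4 nA
      have c3 : N2 (⇑(A1 - A)) * N2 (⇑(B1 - B)) ≤ (2 * C * ‖h‖ * N2 A) * (2 * C * ‖h‖ * N2 B) :=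
        mul_le_mul e1 e2 (N2_nonneg _) (by positivity)
      calc ‖BL n (A1 - A - h • A') B + BL n A (B1 - B - h • B') + BL n (A1 - A) (B1 - B)‖
          ≤ ‖BL n (A1 - A - h • A') B‖ + ‖BL n A (B1 - B - h • B')‖ + ‖BL n (A1 - A) (B1 - B)‖ :=
            norm_add₃_le
        _ ≤ (C ^ 2 * ‖h‖ ^ 2) * N2 A * N2 B + N2 A * ((C ^ 2 * ‖h‖ ^ 2) * N2 B) +
            (2 * C * ‖h‖ * N2 A) * (2 * C * ‖h‖ * N2 B) :=
            add_le_add (add_le_add (b1.trans c1) (b2.trans c2)) (b3.trans c3)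
        _ = 6 * C ^ 2 * (N2 A * N2 B) * ‖h‖ ^ 2 := by ring
        _ = 6 * C ^ 2 * (N2 A * N2 B) * ‖‖h‖ ^ 2‖ := by
            rw [Real.norm_of_nonneg (by positivity)]
    exact hd.differentiableAt
  · refine ⟨(Real.exp C * N2 φ) * (Real.exp C * N2 γ), fun ζ h0 h1 => ?_⟩
    have h2 : Bf n (fun x => Complex.exp (ζ * u x) * φ x) (fun x => Complex.exp (ζ * v x) * γ x) =
        BL n (P hφ hu ζ) (P hγ hv ζ) := rfl
    rw [h2]
    refine (BL_bound n _ _).trans ?_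
    exact mul_le_mul (P_bound hφ hu hbu ζ h0 h1) (P_bound hγ hv hbv ζ h0 h1) (N2_nonneg _)
      (mul_nonneg (Real.exp_pos _).le (N2_nonneg _))

end Pool.Agent.Lib.MP_dd244f_an.Unif
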