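import Pool.Agent.Lib.MP_dd244f_an.Unif.NrAux

/-!
From the operator to the bilinear form (Hoelder).
-/

set_option autoImplicit false

namespace Pool.Agent.Lib.MP_dd244f_an.Unif

open MeasureTheory Filter Topology
open scoped SchwartzMap ENNReal NNReal ContDiff

open NrAux in
theorem hol : StmtHol := by
  intro n p q M hp hpq hM h φ γ hφ hγ
  obtain ⟨hq1, hc⟩ := conj_exp hp hpq
  have hp0 : 0 < p := by linarith
  have hb := h (scS hφ)
  rw [scS_coe] at hb
  have hfin : eLpNorm (Tn n φ) (ENNReal.ofReal p) volume < ⊤ :=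
    lt_of_le_of_lt hb (ENNReal.mul_lt_top ENNReal.ofReal_lt_top (sc_memLp hφ _).2)
  have hT : MemLp (Tn n φ) (ENNReal.ofReal p) (volume : Measure ℂ) :=
    ⟨(tn_continuous n (scS hφ)).aestronglyMeasurable, hfin⟩
  have h1 : nr p (Tn n φ) ≤ M * nr p φ := by
    rw [eLpNorm_eq_nr hp0 hT, eLpNorm_eq_nr hp0 (sc_memLp hφ _),
      ← ENNReal.ofReal_mul hM] at hb
    exact (ENNReal.ofReal_le_ofReal_iff (mul_nonneg hM (nr_nonneg _ _))).1 hb
  unfold Bf
  exact (holder hc hT (sc_memLp hγ _)).trans (mul_le_mul_of_nonneg_right h1 (nr_nonneg _ _))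

end Pool.Agent.Lib.MP_dd244f_an.Unif
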