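import Pool.Agent.Lib.MP_dd244f_an.Unif.Stmts

/-! The loss of the interpolation between the even exponents. -/

set_option autoImplicit false

namespace Pool.Agent.Lib.MP_dd244f_an.Unif

open Pool.Agent.Lib.MP_dd244f_an.Joint (ratio)

namespace NumCm

/-- one factor -/
noncomputable def c (j : ℕ) (x : ℝ) : ℝ := (j + 1 - x) / (j + x)

theorem poch_eq (y : ℝ) (n : ℕ) :
    (ascPochhammer ℝ n).eval y = ∏ j ∈ Finset.range n, ((j : ℝ) + y) := by
  induction n with
  | zero => simp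
  | succ n ih =>
    rw [ascPochhammer_succ_eval, ih, Finset.prod_range_succ, add_comm y]

theorem ratio_eq (n : ℕ) (p : ℝ) : ratio n p = ∏ j ∈ Finset.range n, c j (1 / p) := by
  unfold ratio c
  rw [poch_eq, poch_eq, ← Finset.prod_div_distrib]
  exact Finset.prod_congr rfl fun j _ => by ring

theorem c_pos (j : ℕ) {x : ℝ} (h0 : 0 < x) (h1 : x < 1) : 0 < c j x := by
  unfold c
  have : (0 : ℝ) ≤ j := Nat.cast_nonneg j
  exact div_pos (by linarith) (by linarith)

/-- reduction to the factors -/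
theorem reduce {n : ℕ} {x₀ x₁ x τ C : ℝ} {e : ℕ → ℝ} (h0 : 0 < x₀) (h0' : x₀ < 1) (h1 : 0 < x₁)
    (h1' : x₁ < 1) (hx : 0 < x) (hx' : x < 1)
    (h : ∀ j, c j x₀ ^ (1 - τ) * c j x₁ ^ τ ≤ Real.exp (e j) * c j x)
    (hs : Real.exp (∑ j ∈ Finset.range n, e j) ≤ C) :
    (∏ j ∈ Finset.range n, c j x₀) ^ (1 - τ) * (∏ j ∈ Finset.range n, c j x₁) ^ τ
      ≤ C * ∏ j ∈ Finset.range n, c j x := by
  rw [← Real.finsetProd_rpow _ _ (fun j _ => (c_pos j h0 h0').le),
    ← Real.finsetProd_rpow _ _ (fun j _ => (c_pos j h1 h1').le), ← Finset.prod_mul_distrib]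
  calc _ ≤ ∏ j ∈ Finset.range n, (Real.exp (e j) * c j x) :=
        Finset.prod_le_prod (fun j _ => by
          have := c_pos j h0 h0'
          have := c_pos j h1 h1'
          positivity) (fun j _ => h j)
    _ = Real.exp (∑ j ∈ Finset.range n, e j) * ∏ j ∈ Finset.range n, c j x := by
        rw [Finset.prod_mul_distrib, Real.exp_sum]
    _ ≤ _ := mul_le_mul_of_nonneg_right hs
        (Finset.prod_nonneg fun j _ => (c_pos j hx hx').le)

/-- reversed inequality between the weighted means -/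
theorem rev_amgm {u v τ : ℝ} (hv : 0 < v) (huv : v ≤ u) (h0 : 0 ≤ τ) (h1 : τ ≤ 1) :
    Real.log ((1 - τ) * u + τ * v) ≤ (1 - τ) * Real.log u + τ * Real.log v
      + τ * (1 - τ) * (u - v) ^ 2 / (2 * v ^ 2) := by
  have hcx : ConvexOn ℝ (Set.Ici v) (fun t => Real.log t + t ^ 2 / (2 * v ^ 2)) := by
    have hd : ∀ t ∈ interior (Set.Ici v), HasDerivAt (fun t => Real.log t + t ^ 2 / (2 * v ^ 2))
        (1 / t + t / v ^ 2) t := by
      intro t ht
      rw [interior_Ici] at ht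
      have ht0 : t ≠ 0 := (hv.trans ht).ne'
      have h2 := (Real.hasDerivAt_log ht0).add ((hasDerivAt_pow 2 t).div_const (2 * v ^ 2))
      refine h2.congr_deriv ?_
      rw [one_div]
      congr 1
      field_simp
      norm_num
    apply MonotoneOn.convexOn_of_deriv (convex_Ici v)
    · apply ContinuousOn.add
      · exact Real.continuousOn_log.mono fun t ht => by
          have : 0 < t := hv.trans_le ht
          simp [this.ne']
      · fun_prop
    · intro t ht
      exact (hd t ht).differentiableAt.differentiableWithinAt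
    · intro s hs t ht hst
      rw [(hd s hs).deriv, (hd t ht).deriv]
      rw [interior_Ici] at hs ht
      have hs0 : 0 < s := hv.trans hs
      have ht0 : 0 < t := hv.trans ht
      have h3 : 1 / t + t / v ^ 2 - (1 / s + s / v ^ 2) = (t - s) * (1 / v ^ 2 - 1 / (s * t)) := by
        field_simp
        ring
      have h4 : 1 / (s * t) ≤ 1 / v ^ 2 := by
        apply one_div_le_one_div_of_le (by positivity)
        have hs' : v ≤ s := le_of_lt hs
        have ht' : v ≤ t := le_of_lt ht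
        nlinarith
      have h5 : 0 ≤ (t - s) * (1 / v ^ 2 - 1 / (s * t)) :=
        mul_nonneg (by linarith) (by linarith)
      linarith
  have h2 := hcx.2 (show u ∈ Set.Ici v from huv) (show v ∈ Set.Ici v from le_refl v)
    (show 0 ≤ 1 - τ by linarith) h0 (by ring)
  simp only [smul_eq_mul] at h2
  have h3 : (1 - τ) * (Real.log u + u ^ 2 / (2 * v ^ 2)) + τ * (Real.log v + v ^ 2 / (2 * v ^ 2))
      - ((1 - τ) * u + τ * v) ^ 2 / (2 * v ^ 2)
      = (1 - τ) * Real.log u + τ * Real.log v + τ * (1 - τ) * (u - v) ^ 2 / (2 * v ^ 2) := by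
    field_simp
    ring
  linarith

/-- one factor, general -/
theorem factor {x₀ x₁ x τ : ℝ} (h1 : 0 < x₁) (h01 : x₁ ≤ x₀) (h0' : x₀ < 1) (ht : 0 ≤ τ)
    (ht' : τ ≤ 1) (hx : x = (1 - τ) * x₀ + τ * x₁) (j : ℕ) :
    c j x₀ ^ (1 - τ) * c j x₁ ^ τ ≤
      Real.exp (τ * (1 - τ) * (x₀ - x₁) ^ 2 / (2 * (j + x₁) ^ 2)) * c j x := by
  have hj : (0 : ℝ) ≤ j := Nat.cast_nonneg j
  have ht'' : 0 ≤ 1 - τ := by linarith
  have hx0 : x₁ ≤ x := by rw [hx]; nlinarith
  have hx1 : x ≤ x₀ := by rw [hx]; nlinarith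
  have ha0 : 0 < (j : ℝ) + 1 - x₀ := by linarith
  have ha1 : 0 < (j : ℝ) + 1 - x₁ := by linarith
  have hb0 : 0 < (j : ℝ) + x₀ := by linarith
  have hb1 : 0 < (j : ℝ) + x₁ := by linarith
  have hb : 0 < (j : ℝ) + x := by linarith
  have h2 : ((j : ℝ) + 1 - x₀) ^ (1 - τ) * ((j : ℝ) + 1 - x₁) ^ τ ≤ (j : ℝ) + 1 - x := by
    have := Real.geom_mean_le_arith_mean2_weighted ht'' ht ha0.le ha1.le (by ring)
    rw [hx]
    linarith
  have h3 := rev_amgm (u := (j : ℝ) + x₀) (v := (j : ℝ) + x₁) hb1 (by linarith) ht ht'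
  have h4 : (1 - τ) * ((j : ℝ) + x₀) + τ * ((j : ℝ) + x₁) = (j : ℝ) + x := by rw [hx]; ring
  have h5 : ((j : ℝ) + x₀ - ((j : ℝ) + x₁)) = x₀ - x₁ := by ring
  rw [h4, h5] at h3
  set E := τ * (1 - τ) * (x₀ - x₁) ^ 2 / (2 * ((j : ℝ) + x₁) ^ 2) with hE
  have h6 : (j : ℝ) + x ≤ ((j : ℝ) + x₀) ^ (1 - τ) * ((j : ℝ) + x₁) ^ τ * Real.exp E := by
    rw [Real.rpow_def_of_pos hb0, Real.rpow_def_of_pos hb1, ← Real.exp_add, ← Real.exp_add]
    calc (j : ℝ) + x = Real.exp (Real.log ((j : ℝ) + x)) := (Real.exp_log hb).symm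
      _ ≤ _ := by
        rw [Real.exp_le_exp]
        linarith
  unfold c
  rw [Real.div_rpow ha0.le hb0.le, Real.div_rpow ha1.le hb1.le]
  have hA : 0 < ((j : ℝ) + x₀) ^ (1 - τ) := Real.rpow_pos_of_pos hb0 _
  have hB : 0 < ((j : ℝ) + x₁) ^ τ := Real.rpow_pos_of_pos hb1 _
  rw [div_mul_div_comm, mul_div_assoc', div_le_div_iff₀ (by positivity) hb]
  have h7 : 0 ≤ ((j : ℝ) + 1 - x₀) ^ (1 - τ) * ((j : ℝ) + 1 - x₁) ^ τ :=
    mul_nonneg (Real.rpow_nonneg ha0.le _) (Real.rpow_nonneg ha1.le _)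
  calc _ ≤ ((j : ℝ) + 1 - x) * (((j : ℝ) + x₀) ^ (1 - τ) * ((j : ℝ) + x₁) ^ τ * Real.exp E) :=
        mul_le_mul h2 h6 hb.le (by linarith)
    _ = _ := by ring

theorem sum_inv_sq (n : ℕ) : ∑ j ∈ Finset.range n, 1 / ((j : ℝ) + 1) ^ 2 ≤ 2 := by
  have h : ∀ n : ℕ, ∑ j ∈ Finset.range n, 1 / ((j : ℝ) + 1) ^ 2 ≤ 2 - 2 / ((n : ℝ) + 1) := by
    intro n
    induction n with
    | zero => simp
    | succ n ih =>
      rw [Finset.sum_range_succ]
      have hn : (0 : ℝ) ≤ n := Nat.cast_nonneg n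
      have h1 : 1 / ((n : ℝ) + 1) ^ 2 ≤ 2 / ((n : ℝ) + 1) - 2 / (((n + 1 : ℕ) : ℝ) + 1) := by
        push_cast
        rw [div_sub_div _ _ (by positivity) (by positivity), div_le_div_iff₀ (by positivity)
          (by positivity)]
        nlinarith [mul_nonneg hn hn, mul_nonneg hn (mul_nonneg hn hn)]
      linarith
  refine (h n).trans ?_
  have : (0 : ℝ) ≤ 2 / ((n : ℝ) + 1) := by positivity
  linarith

theorem exp_small {a C : ℝ} (ha : a < 1) (h : 1 ≤ C * (1 - a)) : Real.exp a ≤ C := by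
  have h1 := Real.add_one_le_exp (-a)
  have h2 : 0 < 1 - a := by linarith
  have h3 : Real.exp a * (1 - a) ≤ 1 := by
    calc Real.exp a * (1 - a) ≤ Real.exp a * Real.exp (-a) := by
          apply mul_le_mul_of_nonneg_left _ (Real.exp_pos _).le
          linarith
      _ = 1 := by rw [← Real.exp_add]; simp
  by_contra hc
  rw [not_le] at hc
  have := mul_lt_mul_of_pos_right hc h2
  linarith

/-- the case `k ≥ 2` -/
theorem case2 {k : ℕ} (hk : 2 ≤ k) {x τ : ℝ} (ht : 0 ≤ τ) (ht' : τ ≤ 1)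
    (hx : x = (1 - τ) * (1 / (2 * k)) + τ * (1 / (2 * (k + 1)))) (n : ℕ) :
    (∏ j ∈ Finset.range n, c j (1 / (2 * k))) ^ (1 - τ) *
      (∏ j ∈ Finset.range n, c j (1 / (2 * (k + 1)))) ^ τ
      ≤ 10437 / 10000 * ∏ j ∈ Finset.range n, c j x := by
  have hk' : (2 : ℝ) ≤ k := by exact_mod_cast hk
  have hk0 : (0 : ℝ) < k := by linarith
  have h1 : (0 : ℝ) < 1 / (2 * (k + 1)) := by positivity
  have h0 : (0 : ℝ) < 1 / (2 * k) := by positivity
  have h0' : (1 : ℝ) / (2 * k) < 1 := by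
    rw [div_lt_one (by positivity)]
    linarith
  have h01 : (1 : ℝ) / (2 * (k + 1)) ≤ 1 / (2 * k) :=
    one_div_le_one_div_of_le (by positivity) (by linarith)
  have h1' : (1 : ℝ) / (2 * (k + 1)) < 1 := lt_of_le_of_lt h01 h0'
  have ht'' : 0 ≤ 1 - τ := by linarith
  have hxl : (1 : ℝ) / (2 * (k + 1)) ≤ x := by rw [hx]; nlinarith
  have hxu : x ≤ 1 / (2 * k) := by rw [hx]; nlinarith
  refine reduce (e := fun j => τ * (1 - τ) * ((1 : ℝ) / (2 * k) - 1 / (2 * (k + 1))) ^ 2 /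
    (2 * (j + 1 / (2 * (k + 1))) ^ 2)) h0 h0' h1 h1' (by linarith) (by linarith)
    (fun j => factor h1 h01 h0' ht ht' hx j) ?_
  have hτ : τ * (1 - τ) ≤ 1 / 4 := by nlinarith [sq_nonneg (τ - 1 / 2)]
  have hτ0 : 0 ≤ τ * (1 - τ) := mul_nonneg ht ht''
  have hd : (1 : ℝ) / (2 * k) - 1 / (2 * (k + 1)) = 1 / (2 * k * (k + 1)) := by
    field_simp
    ring
  have hsum : ∑ j ∈ Finset.range n, τ * (1 - τ) * ((1 : ℝ) / (2 * k) - 1 / (2 * (k + 1))) ^ 2 /
      (2 * ((j : ℝ) + 1 / (2 * (k + 1))) ^ 2) ≤ 33 / 1000 := by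
    rw [hd]
    rcases n with _ | n
    · simp; norm_num
    · rw [Finset.sum_range_succ']
      have e0 : τ * (1 - τ) * ((1 : ℝ) / (2 * k * (k + 1))) ^ 2 /
          (2 * (((0 : ℕ) : ℝ) + 1 / (2 * (k + 1))) ^ 2) ≤ 1 / 32 := by
        have e1 : τ * (1 - τ) * ((1 : ℝ) / (2 * k * (k + 1))) ^ 2 /
          (2 * (((0 : ℕ) : ℝ) + 1 / (2 * (k + 1))) ^ 2) = τ * (1 - τ) / (2 * k ^ 2) := by
          push_cast
          field_simp
          ring
        rw [e1, div_le_div_iff₀ (by positivity) (by norm_num)]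
        nlinarith
      have e2 : ∑ i ∈ Finset.range n, τ * (1 - τ) * ((1 : ℝ) / (2 * k * (k + 1))) ^ 2 /
          (2 * (((i + 1 : ℕ) : ℝ) + 1 / (2 * (k + 1))) ^ 2)
          ≤ ∑ i ∈ Finset.range n, 1 / 1152 * (1 / ((i : ℝ) + 1) ^ 2) := by
        refine Finset.sum_le_sum fun i _ => ?_
        have hi : (0 : ℝ) ≤ i := Nat.cast_nonneg i
        have e3 : (1 : ℝ) / (2 * k * (k + 1)) ≤ 1 / 12 := by
          apply one_div_le_one_div_of_le (by norm_num)
          nlinarith
        have e4 : ((1 : ℝ) / (2 * k * (k + 1))) ^ 2 ≤ 1 / 144 := by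
          calc ((1 : ℝ) / (2 * k * (k + 1))) ^ 2 ≤ (1 / 12) ^ 2 :=
                pow_le_pow_left₀ (by positivity) e3 2
            _ = 1 / 144 := by norm_num
        have e5 : τ * (1 - τ) * ((1 : ℝ) / (2 * k * (k + 1))) ^ 2 ≤ 1 / 4 * (1 / 144) :=
          mul_le_mul hτ e4 (by positivity) (by norm_num)
        have e6 : ((i : ℝ) + 1) ^ 2 ≤ (((i + 1 : ℕ) : ℝ) + 1 / (2 * (k + 1))) ^ 2 := by
          push_cast
          apply pow_le_pow_left₀ (by positivity)
          linarith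
        calc _ ≤ (1 / 4 * (1 / 144)) / (2 * (((i + 1 : ℕ) : ℝ) + 1 / (2 * (k + 1))) ^ 2) := by
              apply div_le_div_of_nonneg_right e5 (by positivity)
          _ ≤ (1 / 4 * (1 / 144)) / (2 * ((i : ℝ) + 1) ^ 2) := by
              apply div_le_div_of_nonneg_left (by norm_num) (by positivity)
              linarith
          _ = 1 / 1152 * (1 / ((i : ℝ) + 1) ^ 2) := by
              field_simp
              norm_num
      rw [← Finset.mul_sum] at e2
      have e7 := sum_inv_sq n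
      have e8 : (1 : ℝ) / 1152 * ∑ i ∈ Finset.range n, 1 / ((i : ℝ) + 1) ^ 2 ≤ 1 / 1152 * 2 :=
        mul_le_mul_of_nonneg_left e7 (by norm_num)
      linarith
  exact (Real.exp_le_exp.2 hsum).trans (exp_small (by norm_num) (by norm_num))

/-! ### The case `k = 1` -/

theorem g_deriv {a t : ℝ} (h1 : 0 < a + t) (h2 : 0 < a - t) :
    HasDerivAt (fun t => Real.log (a + t) - Real.log (a - t)) (2 * a / (a ^ 2 - t ^ 2)) t := by
  have e1 : HasDerivAt (fun t => a + t) 1 t := by simpa using (hasDerivAt_id t).const_add a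
  have e2 : HasDerivAt (fun t => a - t) (-1) t := by simpa using (hasDerivAt_id t).const_sub a
  have h := (e1.log h1.ne').sub (e2.log h2.ne')
  refine h.congr_deriv ?_
  have h3 : a ^ 2 - t ^ 2 = (a + t) * (a - t) := by ring
  rw [h3]
  field_simp
  ring

/-- `j = 0` -/
theorem j0 {τ : ℝ} (ht : 0 ≤ τ) (ht' : τ ≤ 1) :
    τ * Real.log 3 ≤ Real.log (2 + τ) - Real.log (2 - τ) + Real.log (10415 / 10000) := by
  have hmin : Real.log (2 + 3 / 5) - Real.log (2 - 3 / 5) - 100 / 91 * (3 / 5) ≤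
      Real.log (2 + τ) - Real.log (2 - τ) - 100 / 91 * τ := by
    set D : ℝ → ℝ := fun t => Real.log (2 + t) - Real.log (2 - t) - 100 / 91 * t with hD
    have hd : ∀ t ∈ Set.Icc (0 : ℝ) 1, HasDerivAt D (2 * 2 / (2 ^ 2 - t ^ 2) - 100 / 91) t := by
      intro t ht
      have h := g_deriv (a := 2) (t := t) (by linarith [ht.1]) (by linarith [ht.2])
      have h2 := h.sub ((hasDerivAt_id t).const_mul (100 / 91 : ℝ))
      exact (show HasDerivAt D (2 * 2 / (2 ^ 2 - t ^ 2) - 100 / 91 * 1) t from h2).congr_deriv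
        (by ring)
    have hc : ContinuousOn D (Set.Icc 0 1) := fun t ht =>
      (hd t ht).continuousAt.continuousWithinAt
    rcases le_total τ (3 / 5) with h | h
    · have hanti : AntitoneOn D (Set.Icc 0 (3 / 5)) := by
        apply antitoneOn_of_deriv_nonpos (convex_Icc _ _)
          (hc.mono (Set.Icc_subset_Icc_right (by norm_num)))
        · intro t ht
          rw [interior_Icc] at ht
          exact (hd t ⟨ht.1.le, by linarith [ht.2]⟩).differentiableAt.differentiableWithinAt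
        · intro t ht
          rw [interior_Icc] at ht
          rw [(hd t ⟨ht.1.le, by linarith [ht.2]⟩).deriv, sub_nonpos,
            div_le_div_iff₀ (by nlinarith [ht.1, ht.2]) (by norm_num)]
          nlinarith [ht.1, ht.2]
      exact hanti ⟨ht, h⟩ ⟨by norm_num, le_refl _⟩ h
    · have hmono : MonotoneOn D (Set.Icc (3 / 5) 1) := by
        apply monotoneOn_of_deriv_nonneg (convex_Icc _ _)
          (hc.mono (Set.Icc_subset_Icc_left (by norm_num)))
        · intro t ht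
          rw [interior_Icc] at ht
          exact (hd t ⟨by linarith [ht.1], ht.2.le⟩).differentiableAt.differentiableWithinAt
        · intro t ht
          rw [interior_Icc] at ht
          rw [(hd t ⟨by linarith [ht.1], ht.2.le⟩).deriv, sub_nonneg,
            div_le_div_iff₀ (by norm_num) (by nlinarith [ht.1, ht.2])]
          nlinarith [ht.1, ht.2]
      exact hmono ⟨le_refl _, by norm_num⟩ ⟨h, ht'⟩ h
  have h3 : Real.log 3 ≤ 100 / 91 := by
    rw [Real.log_le_iff_le_exp (by norm_num)]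
    have e1 : Real.exp (100 / 91) ^ 91 = Real.exp 1 ^ 100 := by
      rw [← Real.exp_nat_mul, ← Real.exp_nat_mul]
      norm_num
    have e2 : (3 : ℝ) ^ 91 ≤ Real.exp (100 / 91) ^ 91 := by
      rw [e1]
      calc (3 : ℝ) ^ 91 ≤ (2.7182 : ℝ) ^ 100 := by norm_num
        _ ≤ Real.exp 1 ^ 100 := pow_le_pow_left₀ (by norm_num)
            (by have := Real.exp_one_gt_d9; linarith) _
    exact le_of_pow_le_pow_left₀ (by norm_num) (Real.exp_pos _).le e2
  have h4 : 60 / 91 ≤ Real.log (2 + 3 / 5) - Real.log (2 - 3 / 5) + Real.log (10415 / 10000) := by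
    rw [← Real.log_div (by norm_num) (by norm_num), ← Real.log_mul (by norm_num) (by norm_num),
      Real.le_log_iff_exp_le (by norm_num)]
    have e1 : Real.exp (60 / 91) ^ 91 = Real.exp 1 ^ 60 := by
      rw [← Real.exp_nat_mul, ← Real.exp_nat_mul]
      norm_num
    have e2 : Real.exp (60 / 91) ^ 91 ≤ (((2 : ℝ) + 3 / 5) / (2 - 3 / 5) * (10415 / 10000)) ^ 91 := by
      rw [e1]
      calc Real.exp 1 ^ 60 ≤ (2.7183 : ℝ) ^ 60 := pow_le_pow_left₀ (Real.exp_pos _).le
            (by have := Real.exp_one_lt_d9; linarith) _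
        _ ≤ _ := by norm_num
    exact le_of_pow_le_pow_left₀ (by norm_num) (by norm_num) e2
  have h5 : τ * Real.log 3 ≤ τ * (100 / 91) := mul_le_mul_of_nonneg_left h3 ht
  linarith

/-- `j ≥ 1` -/
theorem j1 {a τ : ℝ} (ha : 1 < a) (ht : 0 ≤ τ) (ht' : τ ≤ 1) :
    τ * (Real.log (a + 1) - Real.log (a - 1)) ≤ Real.log (a + τ) - Real.log (a - τ)
      + 2 / 3 * a / (a ^ 2 - 1) ^ 2 * (τ * (1 - τ ^ 2)) := by
  set B : ℝ := 2 / 3 * a / (a ^ 2 - 1) ^ 2 with hB
  have ha2 : 0 < a ^ 2 - 1 := by nlinarith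
  have hcv : ConcaveOn ℝ (Set.Icc 0 1) (fun t => Real.log (a + t) - Real.log (a - t) - B * t ^ 3) := by
    have hd : ∀ t ∈ Set.Icc (0 : ℝ) 1, HasDerivAt
        (fun t => Real.log (a + t) - Real.log (a - t) - B * t ^ 3)
        (2 * a / (a ^ 2 - t ^ 2) - B * (3 * t ^ 2)) t := by
      intro t ht
      have h := g_deriv (a := a) (t := t) (by linarith [ht.1]) (by linarith [ht.2])
      have h2 := h.sub ((hasDerivAt_pow 3 t).const_mul B)
      refine (show HasDerivAt (fun t => Real.log (a + t) - Real.log (a - t) - B * t ^ 3) _ t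
        from h2).congr_deriv ?_
      norm_num
    apply AntitoneOn.concaveOn_of_deriv (convex_Icc 0 1)
    · exact fun t ht => (hd t ht).continuousAt.continuousWithinAt
    · intro t ht
      exact (hd t (interior_subset ht)).differentiableAt.differentiableWithinAt
    · intro s hs t ht hst
      rw [(hd s (interior_subset hs)).deriv, (hd t (interior_subset ht)).deriv]
      rw [interior_Icc] at hs ht
      have hs1 : a ^ 2 - 1 ≤ a ^ 2 - s ^ 2 := by nlinarith [hs.1, hs.2]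
      have ht1 : a ^ 2 - 1 ≤ a ^ 2 - t ^ 2 := by nlinarith [ht.1, ht.2]
      have hs2 : 0 < a ^ 2 - s ^ 2 := by linarith
      have ht2 : 0 < a ^ 2 - t ^ 2 := by linarith
      have e1 : 2 * a / (a ^ 2 - t ^ 2) - 2 * a / (a ^ 2 - s ^ 2)
          = 2 * a * (t ^ 2 - s ^ 2) / ((a ^ 2 - t ^ 2) * (a ^ 2 - s ^ 2)) := by
        field_simp
        ring
      have e2 : B * (3 * t ^ 2) - B * (3 * s ^ 2)
          = 2 * a * (t ^ 2 - s ^ 2) / (a ^ 2 - 1) ^ 2 := by
        rw [hB]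
        field_simp
      have e3 : 2 * a * (t ^ 2 - s ^ 2) / ((a ^ 2 - t ^ 2) * (a ^ 2 - s ^ 2))
          ≤ 2 * a * (t ^ 2 - s ^ 2) / (a ^ 2 - 1) ^ 2 := by
        apply div_le_div_of_nonneg_left
        · have : s ^ 2 ≤ t ^ 2 := pow_le_pow_left₀ hs.1.le hst 2
          have : 0 ≤ t ^ 2 - s ^ 2 := by linarith
          positivity
        · positivity
        · rw [sq]
          exact mul_le_mul ht1 hs1 ha2.le ht2.le
      linarith
  have h := hcv.2 (show (0 : ℝ) ∈ Set.Icc (0 : ℝ) 1 by simp)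
    (show (1 : ℝ) ∈ Set.Icc (0 : ℝ) 1 by simp) (show 0 ≤ 1 - τ by linarith) ht (by ring)
  simp only [smul_eq_mul, mul_zero, mul_one, zero_add, add_zero, sub_zero, sub_self] at h
  nlinarith [h]

theorem cubic {τ : ℝ} (ht : 0 ≤ τ) (ht' : τ ≤ 1) : τ * (1 - τ ^ 2) ≤ 385 / 1000 := by
  nlinarith [sq_nonneg (τ - 577 / 1000), mul_nonneg ht (sq_nonneg (τ - 577 / 1000))]

/-- the case `k = 1` -/
theorem case1 {x τ : ℝ} (ht : 0 ≤ τ) (ht' : τ ≤ 1)
    (hx : x = (1 - τ) * (1 / 2) + τ * (1 / 4)) (n : ℕ) :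
    (∏ j ∈ Finset.range n, c j (1 / 2)) ^ (1 - τ) *
      (∏ j ∈ Finset.range n, c j (1 / 4)) ^ τ
      ≤ 10437 / 10000 * ∏ j ∈ Finset.range n, c j x := by
  have hx' : x = (2 - τ) / 4 := by rw [hx]; ring
  have hx0 : 0 < x := by rw [hx']; linarith
  have hx1 : x < 1 := by rw [hx']; linarith
  have hL : 0 < Real.log (10415 / 10000) := Real.log_pos (by norm_num)
  refine reduce (e := fun j => if j = 0 then Real.log (10415 / 10000) else
    77 / 38400 * (1 / (j : ℝ) ^ 2 - 1 / ((j : ℝ) + 1) ^ 2)) (by norm_num) (by norm_num)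
    (by norm_num) (by norm_num) hx0 hx1 (fun j => ?_) ?_
  · have e0 : c j (1 / 2) = 1 := by
      unfold c
      have : (0 : ℝ) ≤ j := Nat.cast_nonneg j
      rw [show (j : ℝ) + 1 - 1 / 2 = j + 1 / 2 by ring]
      exact div_self (by positivity)
    have hj : (0 : ℝ) ≤ j := Nat.cast_nonneg j
    have hap : (0 : ℝ) < 4 * j + 3 := by positivity
    have ham : (0 : ℝ) < 4 * j + 1 := by positivity
    have hbp : (0 : ℝ) < 4 * j + 2 + τ := by linarith
    have hbm : (0 : ℝ) < 4 * j + 2 - τ := by linarith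
    have e1 : c j (1 / 4) = (4 * j + 3) / (4 * j + 1) := by
      unfold c
      rw [div_eq_div_iff (by positivity) (by positivity)]
      ring
    have e2 : c j x = (4 * j + 2 + τ) / (4 * j + 2 - τ) := by
      unfold c
      rw [hx', div_eq_div_iff (by linarith) (by linarith)]
      ring
    rw [e0, e1, e2, Real.one_rpow, one_mul, Real.rpow_def_of_pos (by positivity),
      Real.log_div hap.ne' ham.ne']
    have e3 : (4 * (j : ℝ) + 2 + τ) / (4 * j + 2 - τ)
        = Real.exp (Real.log (4 * j + 2 + τ) - Real.log (4 * j + 2 - τ)) := by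
      rw [Real.exp_sub, Real.exp_log hbp, Real.exp_log hbm]
    rw [e3, ← Real.exp_add, Real.exp_le_exp]
    rcases Nat.eq_zero_or_pos j with h | h
    · subst h
      simp only [if_true]
      have h2 := j0 ht ht'
      norm_num
      norm_num at h2
      linarith
    · have hj1 : (1 : ℝ) ≤ j := by exact_mod_cast h
      rw [if_neg (by omega)]
      have h2 := j1 (a := 4 * (j : ℝ) + 2) (by linarith) ht ht'
      have h3 := cubic ht ht'
      have e4 : (4 * (j : ℝ) + 2 + 1) = 4 * j + 3 := by ring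
      have e5 : (4 * (j : ℝ) + 2 - 1) = 4 * j + 1 := by ring
      rw [e4, e5] at h2
      have h4 : 2 / 3 * (4 * (j : ℝ) + 2) / ((4 * (j : ℝ) + 2) ^ 2 - 1) ^ 2 * (τ * (1 - τ ^ 2))
          ≤ 77 / 38400 * (1 / (j : ℝ) ^ 2 - 1 / ((j : ℝ) + 1) ^ 2) := by
        have hq : 0 < (4 * (j : ℝ) + 2) ^ 2 - 1 := by nlinarith
        have h5 : 0 ≤ 2 / 3 * (4 * (j : ℝ) + 2) / ((4 * (j : ℝ) + 2) ^ 2 - 1) ^ 2 := by positivity
        calc _ ≤ 2 / 3 * (4 * (j : ℝ) + 2) / ((4 * (j : ℝ) + 2) ^ 2 - 1) ^ 2 * (385 / 1000) :=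
              mul_le_mul_of_nonneg_left h3 h5
          _ ≤ _ := by
            have e6 : 77 / 38400 * (1 / (j : ℝ) ^ 2 - 1 / ((j : ℝ) + 1) ^ 2)
                = 77 / 38400 * (2 * j + 1) / (j ^ 2 * ((j : ℝ) + 1) ^ 2) := by
              field_simp
              ring
            rw [e6, div_mul_eq_mul_div, div_le_div_iff₀ (by positivity) (by positivity)]
            have h7 : (j : ℝ) ^ 2 * ((j : ℝ) + 1) ^ 2 * 256 ≤ ((4 * (j : ℝ) + 2) ^ 2 - 1) ^ 2 := by
              nlinarith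
            have h8 : 2 / 3 * (4 * (j : ℝ) + 2) * (385 / 1000)
                = 77 / 38400 * (2 * j + 1) * 256 := by ring
            rw [h8]
            have h9 : 0 ≤ 77 / 38400 * (2 * (j : ℝ) + 1) := by positivity
            calc 77 / 38400 * (2 * (j : ℝ) + 1) * 256 * (j ^ 2 * ((j : ℝ) + 1) ^ 2)
                = 77 / 38400 * (2 * (j : ℝ) + 1) * (j ^ 2 * ((j : ℝ) + 1) ^ 2 * 256) := by ring
              _ ≤ _ := mul_le_mul_of_nonneg_left h7 h9
      linarith
  · rcases n with _ | n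
    · simp; norm_num
    · rw [Finset.sum_range_succ']
      have e1 : ∀ m : ℕ, ∑ i ∈ Finset.range m, (if i + 1 = 0 then Real.log (10415 / 10000) else
          77 / 38400 * (1 / ((i + 1 : ℕ) : ℝ) ^ 2 - 1 / (((i + 1 : ℕ) : ℝ) + 1) ^ 2))
          = 77 / 38400 * (1 - 1 / ((m : ℝ) + 1) ^ 2) := by
        intro m
        induction m with
        | zero => simp
        | succ m ih =>
          rw [Finset.sum_range_succ, ih, if_neg (by omega)]
          push_cast
          ring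
      rw [e1 n]
      simp only [if_true]
      have e2 : 77 / 38400 * (1 - 1 / ((n : ℝ) + 1) ^ 2) ≤ 77 / 38400 := by
        have : 0 ≤ 1 / ((n : ℝ) + 1) ^ 2 := by positivity
        linarith
      calc Real.exp (77 / 38400 * (1 - 1 / ((n : ℝ) + 1) ^ 2) + Real.log (10415 / 10000))
          ≤ Real.exp (77 / 38400 + Real.log (10415 / 10000)) := by
            rw [Real.exp_le_exp]; linarith
        _ = Real.exp (77 / 38400) * (10415 / 10000) := by
            rw [Real.exp_add, Real.exp_log (by norm_num)]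
        _ ≤ (10021 / 10000) * (10415 / 10000) :=
            mul_le_mul_of_nonneg_right (exp_small (by norm_num) (by norm_num)) (by norm_num)
        _ ≤ _ := by norm_num

end NumCm

open NumCm in
theorem numC : StmtNumC := by
  intro n k p τ hk ht ht' hp
  have hk' : (1 : ℝ) ≤ k := by exact_mod_cast hk
  rw [ratio_eq, ratio_eq, ratio_eq]
  have hx : 1 / p = (1 - τ) * (1 / (2 * k)) + τ * (1 / (2 * (k + 1))) := by
    rw [hp]
    ring
  rcases eq_or_lt_of_le hk with h | h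
  · subst h
    have h2 := case1 (x := 1 / p) ht ht' (by rw [hx]; norm_num) n
    have e1 : (1 : ℝ) / (2 * ((1 : ℕ) : ℝ)) = 1 / 2 := by norm_num
    have e2 : (1 : ℝ) / (2 * (((1 : ℕ) : ℝ) + 1)) = 1 / 4 := by norm_num
    rw [e1, e2]
    exact h2
  · exact case2 h ht ht' hx n

end Pool.Agent.Lib.MP_dd244f_an.Unif
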