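import Pool.Agent.Lib.MP_dd244f_an.Unif.Stmts

/-!
The Riesz-Thorin theorem for bilinear forms on smooth functions with compact support on the plane.
-/

set_option autoImplicit false

namespace Pool.Agent.Lib.MP_dd244f_an.Unif.RTSAux

open MeasureTheory Filter Topology Set
open scoped ContDiff

/-- the regularised logarithm of the modulus -/
noncomputable def Lg (ε : ℝ) (f : ℂ → ℂ) (x : ℂ) : ℝ := Real.log (‖f x‖ ^ 2 + ε ^ 2)

theorem arg_pos {ε : ℝ} (hε : 0 < ε) (f : ℂ → ℂ) (x : ℂ) : 0 < ‖f x‖ ^ 2 + ε ^ 2 := by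
  have h1 : 0 < ε ^ 2 := by positivity
  have h2 := sq_nonneg (‖f x‖)
  linarith

theorem Lg_smooth {ε : ℝ} (hε : 0 < ε) {f : ℂ → ℂ} (hf : ContDiff ℝ ∞ f) :
    ContDiff ℝ ∞ (Lg ε f) := by
  have h1 : ContDiff ℝ ∞ (fun x => ‖f x‖ ^ 2 + ε ^ 2) := (hf.norm_sq ℝ).add contDiff_const
  exact h1.log fun x => (arg_pos hε f x).ne'

theorem lim_int {f : ℂ → ℂ} (hf : Continuous f) (hs : HasCompactSupport f) {r P : ℝ} (hr : 0 < r)
    (hP : 0 < P) :
    Tendsto (fun k : ℕ => ∫ x, Real.exp ((P - r) / 2 * Lg (1 / ((k : ℝ) + 1)) f x) * ‖f x‖ ^ r)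
      atTop (𝓝 (∫ x, ‖f x‖ ^ P)) := by
  have hpow : ∀ s : ℝ, 0 < s → Integrable (fun x => ‖f x‖ ^ s) := by
    intro s hs0
    apply Continuous.integrable_of_hasCompactSupport
    · exact hf.norm.rpow_const (fun x => Or.inr hs0.le)
    · exact hs.comp_left (g := fun z : ℂ => ‖z‖ ^ s) (by simp [Real.zero_rpow hs0.ne'])
  have hcont : ∀ (s : ℝ) (ε : ℝ), 0 < ε → Continuous fun x => Real.exp (s * Lg ε f x) *
      ‖f x‖ ^ r := by
    intro s ε hε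
    have h1 : Continuous fun x => Lg ε f x := by
      unfold Lg
      apply Continuous.log (by fun_prop)
      intro x
      exact (arg_pos hε f x).ne'
    have h2 : Continuous fun x => ‖f x‖ ^ r := hf.norm.rpow_const (fun x => Or.inr hr.le)
    fun_prop
  have hsupp : ∀ (s : ℝ) (ε : ℝ), HasCompactSupport fun x => Real.exp (s * Lg ε f x) *
      ‖f x‖ ^ r := by
    intro s ε
    apply HasCompactSupport.mul_left
    exact hs.comp_left (g := fun z : ℂ => ‖z‖ ^ r) (by simp [Real.zero_rpow hr.ne'])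
  have hk : ∀ k : ℕ, 0 < 1 / ((k : ℝ) + 1) := fun k => by positivity
  apply tendsto_integral_of_dominated_convergence
    (fun x => Real.exp ((P - r) / 2 * Lg 1 f x) * ‖f x‖ ^ r + ‖f x‖ ^ P)
  · intro k
    exact (hcont _ _ (hk k)).aestronglyMeasurable
  · exact ((hcont _ 1 one_pos).integrable_of_hasCompactSupport (hsupp _ 1)).add (hpow P hP)
  · intro k
    filter_upwards with x
    have hnn : 0 ≤ ‖f x‖ ^ r := Real.rpow_nonneg (norm_nonneg _) _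
    rw [Real.norm_eq_abs, abs_mul, abs_of_pos (Real.exp_pos _), abs_of_nonneg hnn]
    rcases le_or_gt r P with h | h
    · have h1 : Real.exp ((P - r) / 2 * Lg (1 / ((k : ℝ) + 1)) f x) * ‖f x‖ ^ r ≤
          Real.exp ((P - r) / 2 * Lg 1 f x) * ‖f x‖ ^ r := by
        refine mul_le_mul_of_nonneg_right ?_ hnn
        rw [Real.exp_le_exp]
        refine mul_le_mul_of_nonneg_left ?_ (by linarith)
        apply Real.log_le_log (arg_pos (hk k) f x)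
        have : (1 / ((k : ℝ) + 1)) ^ 2 ≤ 1 ^ 2 := by
          apply pow_le_pow_left₀ (hk k).le
          rw [div_le_one (by positivity)]
          have : (0 : ℝ) ≤ k := Nat.cast_nonneg k
          linarith
        linarith
      have h2 : 0 ≤ ‖f x‖ ^ P := Real.rpow_nonneg (norm_nonneg _) _
      linarith
    · have h1 : 0 ≤ Real.exp ((P - r) / 2 * Lg 1 f x) * ‖f x‖ ^ r := by positivity
      have h2 : Real.exp ((P - r) / 2 * Lg (1 / ((k : ℝ) + 1)) f x) * ‖f x‖ ^ r ≤ ‖f x‖ ^ P := by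
        rcases (norm_nonneg (f x)).eq_or_lt with h0 | h0
        · rw [← h0, Real.zero_rpow hr.ne', Real.zero_rpow hP.ne', mul_zero]
        · have h3 : Real.log (‖f x‖ ^ 2) ≤ Lg (1 / ((k : ℝ) + 1)) f x := by
            apply Real.log_le_log (by positivity)
            have := sq_nonneg (1 / ((k : ℝ) + 1))
            linarith
          have h4 : (P - r) / 2 * Lg (1 / ((k : ℝ) + 1)) f x ≤
              (P - r) / 2 * Real.log (‖f x‖ ^ 2) :=
            mul_le_mul_of_nonpos_left h3 (by linarith)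
          calc Real.exp ((P - r) / 2 * Lg (1 / ((k : ℝ) + 1)) f x) * ‖f x‖ ^ r
              ≤ Real.exp ((P - r) / 2 * Real.log (‖f x‖ ^ 2)) * ‖f x‖ ^ r := by
                refine mul_le_mul_of_nonneg_right ?_ hnn
                rw [Real.exp_le_exp]; exact h4
            _ = ‖f x‖ ^ P := by
                rw [Real.log_pow, show (P - r) / 2 * (((2 : ℕ) : ℝ) * Real.log ‖f x‖) =
                  Real.log ‖f x‖ * (P - r) by push_cast; ring, ← Real.rpow_def_of_pos h0,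
                  ← Real.rpow_add h0]
                congr 1; ring
      linarith
  · filter_upwards with x
    rcases (norm_nonneg (f x)).eq_or_lt with h0 | h0
    · rw [← h0, Real.zero_rpow hr.ne', Real.zero_rpow hP.ne']
      simp
    · have e : ‖f x‖ ^ P = Real.exp ((P - r) / 2 * Lg 0 f x) * ‖f x‖ ^ r := by
        unfold Lg
        rw [show ‖f x‖ ^ 2 + 0 ^ 2 = ‖f x‖ ^ 2 by ring, Real.log_pow,
          show (P - r) / 2 * (((2 : ℕ) : ℝ) * Real.log ‖f x‖) =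
            Real.log ‖f x‖ * (P - r) by push_cast; ring, ← Real.rpow_def_of_pos h0,
          ← Real.rpow_add h0]
        congr 1; ring
      rw [e]
      have h1 : Tendsto (fun k : ℕ => 1 / ((k : ℝ) + 1)) atTop (𝓝 0) :=
        tendsto_one_div_add_atTop_nhds_zero_nat
      have h2 : ContinuousAt (fun t : ℝ => Real.exp ((P - r) / 2 * Lg t f x) * ‖f x‖ ^ r) 0 := by
        have h3 : ContinuousAt (fun t : ℝ => Lg t f x) 0 := by
          unfold Lg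
          apply ContinuousAt.log (by fun_prop)
          positivity
        fun_prop
      exact h2.tendsto.comp h1

/-- the analytic family attached to `φ` and the exponents `P`, `r₀`, `r₁` -/
noncomputable def uf (ε P r₀ r₁ : ℝ) (f : ℂ → ℂ) (x : ℂ) : ℝ :=
  P * (1 / r₁ - 1 / r₀) / 2 * Lg ε f x

noncomputable def f0 (ε P r₀ : ℝ) (f : ℂ → ℂ) (x : ℂ) : ℂ :=
  ((Real.exp ((P / r₀ - 1) / 2 * Lg ε f x) : ℝ) : ℂ) * f x

theorem uf_smooth {ε P r₀ r₁ : ℝ} (hε : 0 < ε) {f : ℂ → ℂ} (hf : ContDiff ℝ ∞ f) :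
    ContDiff ℝ ∞ (uf ε P r₀ r₁ f) := contDiff_const.mul (Lg_smooth hε hf)

theorem f0_SC {ε P r₀ : ℝ} (hε : 0 < ε) {f : ℂ → ℂ} (hf : SC f) : SC (f0 ε P r₀ f) := by
  refine ⟨?_, hf.2.mul_left⟩
  unfold f0
  refine ContDiff.mul ?_ hf.1
  exact Complex.ofRealCLM.contDiff.comp (contDiff_const.mul (Lg_smooth hε hf.1)).exp

theorem fam_SC {ζ : ℂ} {u : ℂ → ℝ} (hu : ContDiff ℝ ∞ u) {f : ℂ → ℂ} (hf : SC f) :
    SC (fun x => Complex.exp (ζ * u x) * f x) := by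
  refine ⟨?_, hf.2.mul_left⟩
  refine ContDiff.mul ?_ hf.1
  refine ContDiff.cexp ?_
  exact contDiff_const.mul (Complex.ofRealCLM.contDiff.comp hu)

theorem norm_fam (ε P r₀ r₁ : ℝ) (f : ℂ → ℂ) (ζ x : ℂ) :
    ‖Complex.exp (ζ * uf ε P r₀ r₁ f x) * f0 ε P r₀ f x‖ =
      Real.exp ((P / r₀ - 1 + ζ.re * (P * (1 / r₁ - 1 / r₀))) / 2 * Lg ε f x) * ‖f x‖ := by
  unfold f0
  rw [norm_mul, norm_mul, Complex.norm_exp, Complex.norm_real, Real.norm_eq_abs,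
    abs_of_pos (Real.exp_pos _), ← mul_assoc, ← Real.exp_add]
  congr 2
  have e : (ζ * (uf ε P r₀ r₁ f x : ℂ)).re = ζ.re * uf ε P r₀ r₁ f x := by simp
  rw [e, uf]
  ring

theorem nr_zero {ε P r₀ r₁ : ℝ} (h₀ : 0 < r₀) (f : ℂ → ℂ) {ζ : ℂ} (hζ : ζ.re = 0) :
    nr r₀ (fun x => Complex.exp (ζ * uf ε P r₀ r₁ f x) * f0 ε P r₀ f x) =
      (∫ x, Real.exp ((P - r₀) / 2 * Lg ε f x) * ‖f x‖ ^ r₀) ^ (1 / r₀) := by
  unfold nr
  congr 2
  ext x
  rw [norm_fam, hζ, Real.mul_rpow (Real.exp_pos _).le (norm_nonneg _), ← Real.exp_mul]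
  congr 2
  field_simp
  ring

theorem nr_one {ε P r₀ r₁ : ℝ} (h₀ : 0 < r₀) (h₁ : 0 < r₁) (f : ℂ → ℂ) {ζ : ℂ}
    (hζ : ζ.re = 1) :
    nr r₁ (fun x => Complex.exp (ζ * uf ε P r₀ r₁ f x) * f0 ε P r₀ f x) =
      (∫ x, Real.exp ((P - r₁) / 2 * Lg ε f x) * ‖f x‖ ^ r₁) ^ (1 / r₁) := by
  unfold nr
  congr 2
  ext x
  rw [norm_fam, hζ, Real.mul_rpow (Real.exp_pos _).le (norm_nonneg _), ← Real.exp_mul]
  congr 2
  field_simp
  ring

theorem fam_tau {ε P r₀ r₁ τ : ℝ} (hP : 0 < P) (hτ : 1 / P = (1 - τ) / r₀ + τ / r₁)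
    (f : ℂ → ℂ) :
    (fun x => Complex.exp ((τ : ℂ) * uf ε P r₀ r₁ f x) * f0 ε P r₀ f x) = f := by
  ext x
  unfold f0 uf
  rw [← mul_assoc, Complex.ofReal_exp, ← Complex.exp_add, ← Complex.ofReal_mul,
    ← Complex.ofReal_add]
  have e1 : P * (1 / P) = 1 := by field_simp
  have e : τ * (P * (1 / r₁ - 1 / r₀) / 2 * Lg ε f x) + (P / r₀ - 1) / 2 * Lg ε f x = 0 := by
    have e2 : τ * (P * (1 / r₁ - 1 / r₀) / 2 * Lg ε f x) + (P / r₀ - 1) / 2 * Lg ε f x =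
        (P * ((1 - τ) / r₀ + τ / r₁) - 1) / 2 * Lg ε f x := by ring
    rw [e2, ← hτ, e1]
    ring
  rw [e, Complex.ofReal_zero, Complex.exp_zero, one_mul]

end RTSAux

open MeasureTheory Filter Topology Set
open RTSAux

theorem rts : StmtRTS := by
  intro 𝓑 p₀ p₁ p q₀ q₁ q M₀ M₁ τ hp₀ hp₁ hM₀ hM₁ hτ0 hτ1 hc₀ hc₁ hc hτ hA h0 h1 φ γ hφ hγ
  have pp₀ : 0 < p₀ := by linarith
  have pp₁ : 0 < p₁ := by linarith
  have a₀ : 1 / p₀ ≤ 1 / 2 := one_div_le_one_div_of_le (by norm_num) hp₀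
  have a₁ : 1 / p₁ ≤ 1 / 2 := one_div_le_one_div_of_le (by norm_num) (hp₀.trans hp₁)
  have i₀ : 0 < 1 / p₀ := by positivity
  have i₁ : 0 < 1 / p₁ := by positivity
  have pq₀ : 0 < q₀ := by
    rw [← one_div_pos]; linarith
  have pq₁ : 0 < q₁ := by
    rw [← one_div_pos]; linarith
  have hτ' : 1 / p = (1 - τ) * (1 / p₀) + τ * (1 / p₁) := by rw [hτ]; ring
  have ip : 0 < 1 / p := by
    rw [hτ']
    rcases hτ0.eq_or_lt with h | h
    · rw [← h]; simpa using i₀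
    · have b1 : 0 ≤ (1 - τ) * (1 / p₀) := mul_nonneg (by linarith) i₀.le
      have b2 : 0 < τ * (1 / p₁) := mul_pos h i₁
      linarith
  have ip2 : 1 / p ≤ 1 / 2 := by
    rw [hτ']
    have b1 : (1 - τ) * (1 / p₀) ≤ (1 - τ) * (1 / 2) := mul_le_mul_of_nonneg_left a₀ (by linarith)
    have b2 : τ * (1 / p₁) ≤ τ * (1 / 2) := mul_le_mul_of_nonneg_left a₁ hτ0
    linarith
  have pp : 0 < p := one_div_pos.1 ip
  have pq : 0 < q := by rw [← one_div_pos]; linarith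
  have hτq : 1 / q = (1 - τ) / q₀ + τ / q₁ := by
    have e1 : (1 - τ) / q₀ = (1 - τ) * (1 / q₀) := by ring
    have e2 : τ / q₁ = τ * (1 / q₁) := by ring
    rw [e1, e2, show 1 / q₀ = 1 - 1 / p₀ by linarith, show 1 / q₁ = 1 - 1 / p₁ by linarith,
      show 1 / q = 1 - 1 / p by linarith, hτ']
    ring
  -- the regularised inequality
  have key : ∀ ε : ℝ, 0 < ε → ‖𝓑 φ γ‖ ≤
      (M₀ * (∫ x, Real.exp ((p - p₀) / 2 * Lg ε φ x) * ‖φ x‖ ^ p₀) ^ (1 / p₀) *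
        (∫ x, Real.exp ((q - q₀) / 2 * Lg ε γ x) * ‖γ x‖ ^ q₀) ^ (1 / q₀)) ^ (1 - τ) *
      (M₁ * (∫ x, Real.exp ((p - p₁) / 2 * Lg ε φ x) * ‖φ x‖ ^ p₁) ^ (1 / p₁) *
        (∫ x, Real.exp ((q - q₁) / 2 * Lg ε γ x) * ‖γ x‖ ^ q₁) ^ (1 / q₁)) ^ τ := by
    intro ε hε
    obtain ⟨hd, C, hC⟩ := hA (f0 ε p p₀ φ) (f0 ε q q₀ γ) (f0_SC hε hφ) (f0_SC hε hγ)
      (uf ε p p₀ p₁ φ) (uf ε q q₀ q₁ γ) (uf_smooth hε hφ.1) (uf_smooth hε hγ.1)
    set F : ℂ → ℂ := fun ζ : ℂ => 𝓑 (fun x => Complex.exp (ζ * uf ε p p₀ p₁ φ x) * f0 ε p p₀ φ x)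
        (fun x => Complex.exp (ζ * uf ε q q₀ q₁ γ x) * f0 ε q q₀ γ x) with hF
    have b0 : ∀ z ∈ Complex.re ⁻¹' {0}, ‖F z‖ ≤
        M₀ * (∫ x, Real.exp ((p - p₀) / 2 * Lg ε φ x) * ‖φ x‖ ^ p₀) ^ (1 / p₀) *
        (∫ x, Real.exp ((q - q₀) / 2 * Lg ε γ x) * ‖γ x‖ ^ q₀) ^ (1 / q₀) := by
      intro z hz
      have hz' : z.re = 0 := hz
      have h3 := h0 _ _ (fam_SC (ζ := z) (uf_smooth (P := p) (r₀ := p₀) (r₁ := p₁) hε hφ.1)
        (f0_SC (P := p) (r₀ := p₀) hε hφ))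
        (fam_SC (ζ := z) (uf_smooth (P := q) (r₀ := q₀) (r₁ := q₁) hε hγ.1)
        (f0_SC (P := q) (r₀ := q₀) hε hγ))
      rw [nr_zero pp₀ φ hz', nr_zero pq₀ γ hz'] at h3
      exact h3
    have b1 : ∀ z ∈ Complex.re ⁻¹' {1}, ‖F z‖ ≤
        M₁ * (∫ x, Real.exp ((p - p₁) / 2 * Lg ε φ x) * ‖φ x‖ ^ p₁) ^ (1 / p₁) *
        (∫ x, Real.exp ((q - q₁) / 2 * Lg ε γ x) * ‖γ x‖ ^ q₁) ^ (1 / q₁) := by
      intro z hz
      have hz' : z.re = 1 := hz
      have h3 := h1 _ _ (fam_SC (ζ := z) (uf_smooth (P := p) (r₀ := p₀) (r₁ := p₁) hε hφ.1)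
        (f0_SC (P := p) (r₀ := p₀) hε hφ))
        (fam_SC (ζ := z) (uf_smooth (P := q) (r₀ := q₀) (r₁ := q₁) hε hγ.1)
        (f0_SC (P := q) (r₀ := q₀) hε hγ))
      rw [nr_one pp₀ pp₁ φ hz', nr_one pq₀ pq₁ γ hz'] at h3
      exact h3
    have hθ : ((τ : ℝ) : ℂ) ∈ Complex.HadamardThreeLines.verticalClosedStrip 0 1 := by
      constructor
      · simpa only [Complex.ofReal_re] using hτ0
      · simpa only [Complex.ofReal_re] using hτ1
    have h3l := Complex.HadamardThreeLines.norm_le_interp_of_mem_verticalClosedStrip₀₁' F hθ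
      (hd.diffContOnCl) (by
        refine ⟨C, ?_⟩
        rintro y ⟨ζ, hζ, rfl⟩
        exact hC ζ hζ.1 hζ.2) b0 b1
    rw [Complex.ofReal_re] at h3l
    have hFθ : F (τ : ℂ) = 𝓑 φ γ := by
      rw [hF]
      simp only
      rw [fam_tau pp hτ φ, fam_tau pq hτq γ]
    rw [hFθ] at h3l
    exact h3l
  -- the limit
  have l1 := lim_int hφ.1.continuous hφ.2 pp₀ pp
  have l2 := lim_int hγ.1.continuous hγ.2 pq₀ pq
  have l3 := lim_int hφ.1.continuous hφ.2 pp₁ pp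
  have l4 := lim_int hγ.1.continuous hγ.2 pq₁ pq
  unfold nr
  set J := ∫ x, ‖φ x‖ ^ p with hJ
  set K := ∫ x, ‖γ x‖ ^ q with hK
  have hJ0 : 0 ≤ J := integral_nonneg fun x => Real.rpow_nonneg (norm_nonneg _) _
  have hK0 : 0 ≤ K := integral_nonneg fun x => Real.rpow_nonneg (norm_nonneg _) _
  have hlim := ((((l1.rpow_const (Or.inr i₀.le)).const_mul M₀).mul
      (l2.rpow_const (p := 1 / q₀) (Or.inr (by positivity)))).rpow_const (p := 1 - τ)
        (Or.inr (by linarith))).mul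
    ((((l3.rpow_const (Or.inr i₁.le)).const_mul M₁).mul
      (l4.rpow_const (p := 1 / q₁) (Or.inr (by positivity)))).rpow_const (p := τ) (Or.inr hτ0))
  have hfin := ge_of_tendsto' hlim (fun k => key _ (by positivity))
  refine hfin.trans (le_of_eq ?_)
  have n1 : 0 ≤ J ^ (1 / p₀) := Real.rpow_nonneg hJ0 _
  have n2 : 0 ≤ J ^ (1 / p₁) := Real.rpow_nonneg hJ0 _
  have n3 : 0 ≤ K ^ (1 / q₀) := Real.rpow_nonneg hK0 _
  have n4 : 0 ≤ K ^ (1 / q₁) := Real.rpow_nonneg hK0 _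
  rw [Real.mul_rpow (mul_nonneg hM₀.le n1) n3, Real.mul_rpow hM₀.le n1,
    Real.mul_rpow (mul_nonneg hM₁.le n2) n4, Real.mul_rpow hM₁.le n2,
    ← Real.rpow_mul hJ0, ← Real.rpow_mul hJ0, ← Real.rpow_mul hK0, ← Real.rpow_mul hK0]
  have c1 : J ^ (1 / p₀ * (1 - τ)) * J ^ (1 / p₁ * τ) = J ^ (1 / p) := by
    rw [← Real.rpow_add_of_nonneg hJ0 (mul_nonneg i₀.le (by linarith)) (mul_nonneg i₁.le hτ0)]
    congr 1
    rw [hτ']; ring
  have c2 : K ^ (1 / q₀ * (1 - τ)) * K ^ (1 / q₁ * τ) = K ^ (1 / q) := by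
    rw [← Real.rpow_add_of_nonneg hK0 (mul_nonneg (by positivity) (by linarith))
      (mul_nonneg (by positivity) hτ0)]
    congr 1
    rw [hτq]; ring
  rw [← c1, ← c2]
  ring

end Pool.Agent.Lib.MP_dd244f_an.Unif
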