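import Pool.Agent.Lib.MP_dd244f_an.Even.All
import Pool.Agent.Lib.MP_dd244f_an.Unif.RTS
import Pool.Agent.Lib.MP_dd244f_an.Unif.FormAn
import Pool.Agent.Lib.MP_dd244f_an.Unif.Hol
import Pool.Agent.Lib.MP_dd244f_an.Unif.Conc
import Pool.Agent.Lib.MP_dd244f_an.Unif.NumC
import Pool.Agent.Lib.MP_dd244f_an.Unif.FinalU

/-! The modules put together. -/

set_option autoImplicit false

namespace Pool.Agent.Lib.MP_dd244f_an.Unif

theorem all_finalU : StmtFinalU := finalU Even.all_finalE rts formAn hol conc numC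

end Pool.Agent.Lib.MP_dd244f_an.Unif
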