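import Pool.Agent.Lib.MP_dd244f_an.Unif.Stmts

/-!
Small facts on `nr`, `SC` and `Tn` (used by `Hol` and `Conc`).
-/

set_option autoImplicit false

namespace Pool.Agent.Lib.MP_dd244f_an.Unif.NrAux

open MeasureTheory Filter Topology FourierTransform
open scoped SchwartzMap ENNReal NNReal ContDiff

theorem tn_continuous (n : ℕ) (f : 𝓢(ℂ, ℂ)) : Continuous (Tn n f) := by
  have e : Tn n f = fun w => 𝓕 (fun ξ : ℂ => (starRingEnd ℂ ξ / ξ) ^ n * 𝓕 (f : ℂ → ℂ) ξ)
      (-w) := by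
    ext z
    rw [Tn_eq n f z, Real.fourierInv_eq_fourier_neg]
  rw [e]
  have hc : Continuous (𝓕 (fun ξ : ℂ => (starRingEnd ℂ ξ / ξ) ^ n * 𝓕 (f : ℂ → ℂ) ξ)) :=
    VectorFourier.fourierIntegral_continuous Real.continuous_fourierChar
      (by exact continuous_inner) (mult_integrable n f)
  exact hc.comp continuous_neg

theorem nr_nonneg (p : ℝ) (f : ℂ → ℂ) : 0 ≤ nr p f := by
  unfold nr
  exact Real.rpow_nonneg (integral_nonneg fun x => Real.rpow_nonneg (norm_nonneg _) _) _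

theorem eLpNorm_eq_nr {p : ℝ} (hp : 0 < p) {f : ℂ → ℂ} (hf : MemLp f (ENNReal.ofReal p)) :
    eLpNorm f (ENNReal.ofReal p) volume = ENNReal.ofReal (nr p f) := by
  rw [hf.eLpNorm_eq_integral_rpow_norm (by simpa using hp) ENNReal.ofReal_ne_top,
    ENNReal.toReal_ofReal hp.le]
  unfold nr
  rw [one_div]

theorem sc_memLp {φ : ℂ → ℂ} (h : SC φ) (p : ℝ≥0∞) : MemLp φ p (volume : Measure ℂ) :=
  h.1.continuous.memLp_of_hasCompactSupport h.2

/-- the Schwartz function of an element of `SC` -/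
noncomputable def scS {φ : ℂ → ℂ} (h : SC φ) : 𝓢(ℂ, ℂ) := h.2.toSchwartzMap h.1

theorem scS_coe {φ : ℂ → ℂ} (h : SC φ) : (scS h : ℂ → ℂ) = φ := rfl

theorem conj_exp {p q : ℝ} (hp : 2 ≤ p) (hpq : 1 / p + 1 / q = 1) :
    1 < q ∧ p.HolderConjugate q := by
  have hp0 : 0 < p := by linarith
  have h1 : 1 / q = 1 - 1 / p := by linarith
  have h2 : 1 / p ≤ 1 / 2 := by
    apply one_div_le_one_div_of_le (by norm_num) hp
  have h3 : 0 < 1 / p := by positivity
  have hq0 : 0 < 1 / q := by linarith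
  have hq : 0 < q := one_div_pos.1 hq0
  have hq1 : 1 < q := by
    have h4 : 1 / q < 1 := by linarith
    rw [div_lt_one hq] at h4
    exact h4
  refine ⟨hq1, ?_⟩
  rw [Real.holderConjugate_iff]
  refine ⟨by linarith, ?_⟩
  rw [← one_div, ← one_div]
  exact hpq

theorem holder {p q : ℝ} (hpq : p.HolderConjugate q) {f g : ℂ → ℂ}
    (hf : MemLp f (ENNReal.ofReal p)) (hg : MemLp g (ENNReal.ofReal q)) :
    ‖∫ x, f x * g x‖ ≤ nr p f * nr q g := by
  refine (norm_integral_le_integral_norm _).trans ?_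
  have h := integral_mul_norm_le_Lp_mul_Lq (μ := (volume : Measure ℂ)) hpq hf hg
  unfold nr
  refine le_trans (le_of_eq ?_) h
  congr 1
  ext x
  rw [norm_mul]

theorem ofReal_two : ENNReal.ofReal (2 : ℝ) = 2 := by norm_num

theorem memLp_two {f : ℂ → ℂ} (hf : MemLp f 2) : MemLp f (ENNReal.ofReal 2) := by
  rw [ofReal_two]; exact hf

end Pool.Agent.Lib.MP_dd244f_an.Unif.NrAux
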